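import Pool.Agent.R512.U.ExpR
import Pool.Agent.R512.U.Cls
import Pool.Agent.TH823.MRS.Circ5

set_option autoImplicit false

/-! Exponential sums in almost all windows, at one scale; adapted from `Pool.Agent.TH823.MRS.Circ2` (starting files). -/

namespace Pool.Agent.Helper82K9.EL

open Finset
open Pool.Agent.H807R2.Dav (ee norm_ee ee_add ee_int ee_pow ee_zero)
open Pool.Agent.TH823.MRS (phase moving)
open Pool.Agent.Y872.L (CM)
open Pool.Agent.R512.U (SMn SMn_mono Far expoR smn_of_far)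

/-- the exponential sums of `h` in the windows of length at least `W₀` are small on average, at the scale `X` -/
def WS (h : ℕ → ℂ) (ε : ℝ) (W₀ X : ℕ) : Prop := ∀ W : ℕ, W₀ ≤ W → W ≤ X → ∀ α : ℝ,
  ∑ z ∈ range (3 * X + 1), ‖∑ n ∈ Icc 1 (3 * X), if n ≤ z ∧ z < n + W then h n * ee ((n : ℝ) * α) else 0‖ ≤ ε * W * X

/-- the first moment of the exponential sums in the windows -/
theorem ws_of (h : ℕ → ℂ) (ε : ℝ) (H₀ : ℝ) (X : ℕ)
    (hX : ∀ H : ℝ, H₀ ≤ H → H ≤ X → ∀ T : ℕ → ℂ,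
      (∀ n : ℕ, ‖T n‖ ≤ H) → (∀ n m : ℕ, ‖T n - T m‖ ≤ 2 * |(n : ℝ) - m|) → (∀ n : ℕ, 3 * X < n → T n = 0) →
      ∀ α : ℝ, ‖∑ n ∈ Icc 1 (3 * X), h n * ee ((n : ℝ) * α) * T n‖ ≤ ε * H * X)
    (W₀ : ℕ) (hW₀ : H₀ ≤ W₀) : WS h ε W₀ X := by
  intro W hW1 hW2 α
  set S : ℕ → ℂ := fun z => ∑ n ∈ Icc 1 (3 * X), if n ≤ z ∧ z < n + W then h n * ee ((n : ℝ) * α) else 0 with hS
  choose θ0 hθ0 hθ1 using fun z => phase (S z)
  set θ : ℕ → ℂ := fun z => if z < 3 * X + 1 then θ0 z else 0 with hθ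
  have hθb : ∀ z, ‖θ z‖ ≤ 1 := by
    intro z
    rw [hθ]
    simp only
    split_ifs
    · exact hθ0 z
    · simp
  have key := hX W (hW₀.trans (by exact_mod_cast hW1)) (by exact_mod_cast hW2)
    (fun n => ∑ z ∈ Ico n (n + W), θ z) (by
      intro n
      refine (norm_sum_le _ _).trans ((sum_le_sum fun z _ => hθb z).trans ?_)
      rw [sum_const, Nat.card_Ico, nsmul_eq_mul, mul_one, Nat.add_sub_cancel_left]) (by
      intro n m
      exact moving θ hθb W n m) (by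
      intro n hn
      apply sum_eq_zero
      intro z hz
      rw [mem_Ico] at hz
      rw [hθ]
      simp only
      rw [if_neg]
      omega) α
  refine le_trans (le_of_eq ?_) key
  have e1 : ((∑ z ∈ range (3 * X + 1), ‖S z‖ : ℝ) : ℂ) = ∑ n ∈ Icc 1 (3 * X), h n * ee ((n : ℝ) * α) * ∑ z ∈ Ico n (n + W), θ z := by
    push_cast
    have e2 : ∀ z ∈ range (3 * X + 1), ((‖S z‖ : ℝ) : ℂ) =
        ∑ n ∈ Icc 1 (3 * X), if n ≤ z ∧ z < n + W then h n * ee ((n : ℝ) * α) * θ0 z else 0 := by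
      intro z _
      rw [← hθ1 z, hS]
      simp only
      rw [mul_sum]
      apply sum_congr rfl
      intro n _
      split_ifs
      · ring
      · rw [mul_zero]
    rw [sum_congr rfl e2, sum_comm]
    apply sum_congr rfl
    intro n _
    have e3 : ∑ z ∈ Ico n (n + W), θ z = ∑ z ∈ range (3 * X + 1), if n ≤ z ∧ z < n + W then θ0 z else 0 := by
      rw [hθ]
      simp only
      rw [← sum_filter, ← sum_filter]
      apply sum_congr _ fun _ _ => rfl
      ext z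
      simp only [mem_filter, mem_Ico, mem_range]
      tauto
    rw [e3, mul_sum]
    apply sum_congr rfl
    intro z _
    split_ifs
    · rfl
    · rw [mul_zero]
  rw [← e1, Complex.norm_real, Real.norm_of_nonneg (sum_nonneg fun _ _ => norm_nonneg _)]


/-- completely multiplicative functions which are far from the real characters -/
theorem ws_cm (ε : ℝ) (hε : 0 < ε) : ∃ A : ℕ, 1 ≤ A ∧ ∀ N : ℕ, A ≤ N → ∀ f : ℕ → ℤ, CM f → Far A N f →
    ∀ X : ℕ, N ≤ X → WS (fun n => (f n : ℂ)) ε A X := by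
  obtain ⟨B, H₀, X₀, hX⟩ := expoR ε hε 2 (by norm_num)
  obtain ⟨A1, hA1, hfar⟩ := smn_of_far (B + 1)
  refine ⟨A1 + X₀ + ⌈H₀⌉₊, by omega, fun N hN f hf hF X hNX => ?_⟩
  have hF' : Far A1 N f := by
    intro q χ h1 h2 h3
    have h4 := hF q χ h1 (by omega) h3
    refine le_trans ?_ h4
    exact_mod_cast (by omega : A1 ≤ A1 + X₀ + ⌈H₀⌉₊)
  have hs : SMn B X f := SMn_mono (Nat.le_succ B) (hfar N (by omega) f hf hF' X (by nlinarith))
  refine ws_of _ ε H₀ X (fun H hH1 hH2 T hT1 hT2 hT3 α => hX X (by omega) f hf hs H hH1 hH2 T hT1 hT2 hT3 α) _ ?_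
  refine (Nat.le_ceil _).trans ?_
  exact_mod_cast (by omega : ⌈H₀⌉₊ ≤ A1 + X₀ + ⌈H₀⌉₊)

end Pool.Agent.Helper82K9.EL
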