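import Pool.Agent.Helper82K9.EL.EL1

set_option autoImplicit false

/-! All but few short shifts, from exponential sums in windows at one scale; adapted from
`Pool.Agent.TH823.MRS.Circ2` and `Circ3` (starting files). -/

namespace Pool.Agent.Helper82K9.EL

open Finset
open Pool.Agent.H807R2.Dav (ee norm_ee ee_add ee_int ee_pow ee_zero)
open Pool.Agent.H373R2.T7 (exI orth sq_expand triple majorant_pow energy moment_energy)
open Pool.Agent.TH823.MRS (phase moving win_eq cover one_win frm frm_norm exI_norm1 frm_sum frm_int grid_int)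

/-- the first moment over a family of short shifts of nearly minimal energy -/
theorem l1_short (p : ℕ) (C : ℝ) (hC : 0 ≤ C) (ε : ℝ) (hε : 0 < ε) :
    ∃ ε' : ℝ, 0 < ε' ∧ ∀ h : ℕ → ℂ, (∀ n, ‖h n‖ ≤ 1) → ∀ W₀ N : ℕ, WS h ε' W₀ (3 * N) →
      ∀ H : ℕ, W₀ ≤ H → 1 ≤ H → H ≤ N → ∀ (x : ℕ) (s : ℕ → ℤ), (∀ m ∈ Icc 1 x, |s m| ≤ H) →
      (energy p x s : ℝ) * H ≤ C * (x : ℝ) ^ (2 * p) → ∀ G : ℤ → ℂ, (∀ a, ‖G a‖ ≤ 1) →
      ∑ m ∈ Icc 1 x, ‖∑ a ∈ Ioc (-(H : ℤ)) N, G a * exI h (a + s m)‖ ≤ ε * N * x := by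
  set η : ℝ := ε / 40 with hη
  have hη0 : 0 < η := by positivity
  set ε' : ℝ := ε * η ^ (2 * p) / (18 * (C + 1)) with hε'
  have hε0 : 0 < ε' := by positivity
  refine ⟨ε', hε0, fun h hb W₀ N hW H hH1 hHp hH2 x s hs hen G hG => ?_⟩
  rcases Nat.eq_zero_or_pos x with hx | hx
  · rw [hx]; simp
  have hx0 : (0 : ℝ) < x := by exact_mod_cast hx
  have hN0 : (0 : ℝ) < N := by exact_mod_cast (by omega : 0 < N)
  have hH0 : (0 : ℝ) < H := by exact_mod_cast (by omega : 0 < H)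
  set M : ℕ := (2 * p + 4) * H with hM
  have hM1 : 1 ≤ M := Nat.mul_pos (by omega) (by omega)
  have hM0 : (0 : ℝ) < M := by exact_mod_cast hM1
  have hMH : 4 * H ≤ M := Nat.mul_le_mul_right _ (by omega)
  set S : ℕ → ℂ := fun m => ∑ a ∈ Ioc (-(H : ℤ)) N, G a * exI h (a + s m) with hS
  choose c hc0 hc1 using fun m => phase (S m)
  set Gz : ℤ → ℂ := fun a => if -(H : ℤ) < a ∧ a ≤ N then G a else 0 with hGz
  have hGzb : ∀ a, ‖Gz a‖ ≤ 1 := by
    intro a
    rw [hGz]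
    simp only
    split_ifs
    · exact hG _
    · simp
  set F : ℤ → ℂ := exI h with hF
  have hFb : ∀ a, ‖F a‖ ≤ 1 := by
    intro a
    rw [hF]
    unfold exI
    split_ifs
    · exact hb _
    · simp
  set φ : ℤ → ℂ := fun a => ∑ m ∈ Icc 1 x, Gz a * c m * F (a + s m) with hφ
  have hφ0 : ∀ a : ℤ, ¬ (-(H : ℤ) < a ∧ a ≤ (N : ℤ)) → φ a = 0 := by
    intro a ha
    rw [hφ]
    simp only
    apply sum_eq_zero
    intro m _
    rw [hGz]
    simp only
    rw [if_neg ha, zero_mul, zero_mul]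
  have hsum : ∑ a ∈ Ioc (-(H : ℤ)) N, φ a = ((∑ m ∈ Icc 1 x, ‖S m‖ : ℝ) : ℂ) := by
    rw [hφ]
    simp only
    rw [sum_comm]
    push_cast
    apply sum_congr rfl
    intro m _
    rw [← hc1 m, hS]
    simp only
    rw [mul_sum]
    apply sum_congr rfl
    intro n hn
    rw [mem_Ioc] at hn
    rw [hGz]
    simp only
    rw [if_pos hn]
    ring
  set Z : ℕ := 9 * N + 1 with hZ
  have hcov := cover φ N H Z hφ0 (by omega)
  rw [hsum] at hcov
  set Sh : ℕ → ℂ := fun t => ∑ m ∈ Icc 1 x, c m * ee ((t : ℝ) * ((s m : ℝ) / M)) with hSh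
  set fh : ℕ → ℕ → ℂ := fun z t => ∑ n ∈ Ioc ((z : ℤ) - 3 * H) z, F n * ee ((t : ℝ) * (((-1 * n : ℤ) : ℝ) / M)) with hfh
  have hwin : ∀ z ∈ range Z, M * ‖∑ a ∈ Ioc ((z : ℤ) - 2 * H) (z - H), φ a‖ ≤
      η * x * (M * (2 * H)) + (H : ℝ) * x / η ^ (2 * p) * ∑ t ∈ range M, ‖fh z t‖ * (‖Sh t‖ / x) ^ (2 * p) := by
    intro z _
    have h1 := one_win (Ioc ((z : ℤ) - 2 * H) (z - H)) (Ioc ((z : ℤ) - 3 * H) z) M x hM1 hx F Gz c s
      (by
        intro a ha m hm
        rw [mem_Ioc] at ha ⊢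
        have := abs_le.1 (hs m hm)
        omega)
      (by
        intro a ha b hb'
        rw [mem_Ioc] at ha hb'
        rw [abs_lt]
        omega)
      (by
        intro a ha b hb'
        rw [mem_Ioc] at ha hb'
        rw [abs_lt]
        omega) hFb hGzb hc0 η hη0 p
    have hc1 : (Ioc ((z : ℤ) - 2 * H) (z - H)).card = H := by
      rw [Int.card_Ioc]
      omega
    have hc2 : (Ioc ((z : ℤ) - 3 * H) z).card = 3 * H := by
      rw [Int.card_Ioc]
      omega
    rw [hc1, hc2] at h1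
    refine h1.trans ?_
    apply add_le_add _ le_rfl
    apply mul_le_mul_of_nonneg_left _ (by positivity)
    apply mul_le_mul_of_nonneg_left _ (by positivity)
    rw [Real.sqrt_le_left (by positivity)]
    push_cast
    nlinarith
  have hsw : ∀ t : ℕ, ∑ z ∈ range Z, ‖fh z t‖ ≤ ε' * (3 * H) * (3 * N) := by
    intro t
    have h1 := hW (3 * H) (by omega) (by omega) (-(t : ℝ) / M)
    have h2 : 3 * (3 * N) + 1 = Z := by omega
    rw [h2] at h1
    push_cast at h1
    refine le_trans (le_of_eq ?_) h1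
    apply sum_congr rfl
    intro z hz
    rw [mem_range] at hz
    have h3 := win_eq h (3 * N) (3 * H) z (by omega) (-(t : ℝ) / M)
    rw [← h3, hfh]
    simp only
    congr 1
    push_cast
    apply sum_congr rfl
    intro n _
    congr 2
    ring
  have hmom : ∑ t ∈ range M, (‖Sh t‖ / x) ^ (2 * p) ≤ M * C / H := by
    have h1 := majorant_pow p x c hc0 s M hM1
    have h2 := moment_energy p x s M H hM1 hs (by
      rw [hM]
      exact Nat.mul_lt_mul_of_pos_right (by omega) (by omega))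
    rw [h2] at h1
    have h3 : ∑ t ∈ range M, (‖Sh t‖ / x) ^ (2 * p) = (∑ t ∈ range M, ‖Sh t‖ ^ (2 * p)) / (x : ℝ) ^ (2 * p) := by
      rw [sum_div]
      exact sum_congr rfl fun t _ => div_pow _ _ _
    rw [h3, div_le_iff₀ (by positivity)]
    refine h1.trans ?_
    have h4 : (M : ℝ) * C / H * (x : ℝ) ^ (2 * p) = M * (C * (x : ℝ) ^ (2 * p) / H) := by ring
    rw [h4]
    apply mul_le_mul_of_nonneg_left _ hM0.le
    rw [le_div_iff₀ hH0]
    exact hen
  have htot : (M : ℝ) * (H * ∑ m ∈ Icc 1 x, ‖S m‖) ≤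
      Z * (η * x * (M * (2 * H))) + (H : ℝ) * x / η ^ (2 * p) * ((ε' * (3 * H) * (3 * N)) * (M * C / H)) := by
    have h1 : (H : ℝ) * ∑ m ∈ Icc 1 x, ‖S m‖ = ‖∑ z ∈ range Z, ∑ a ∈ Ioc ((z : ℤ) - 2 * H) (z - H), φ a‖ := by
      rw [hcov, norm_mul, Complex.norm_natCast, Complex.norm_real, Real.norm_of_nonneg (sum_nonneg fun _ _ => norm_nonneg _)]
    rw [h1]
    refine (mul_le_mul_of_nonneg_left (norm_sum_le _ _) hM0.le).trans ?_
    rw [mul_sum]
    refine (sum_le_sum hwin).trans ?_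
    rw [sum_add_distrib, sum_const, card_range, nsmul_eq_mul, ← mul_sum]
    apply add_le_add le_rfl
    apply mul_le_mul_of_nonneg_left _ (by positivity)
    rw [sum_comm]
    have h2 : ∀ t ∈ range M, ∑ z ∈ range Z, ‖fh z t‖ * (‖Sh t‖ / x) ^ (2 * p) ≤ (ε' * (3 * H) * (3 * N)) * (‖Sh t‖ / x) ^ (2 * p) := by
      intro t _
      rw [← sum_mul]
      exact mul_le_mul_of_nonneg_right (hsw t) (by positivity)
    refine (sum_le_sum h2).trans ?_
    rw [← mul_sum]
    exact mul_le_mul_of_nonneg_left hmom (by positivity)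
  have hZr : (Z : ℝ) ≤ 10 * N := by
    rw [hZ]
    push_cast
    have : (1 : ℝ) ≤ N := by exact_mod_cast (by omega : 1 ≤ N)
    linarith
  have e1 : (H : ℝ) * x / η ^ (2 * p) * ((ε' * (3 * H) * (3 * N)) * (M * C / H)) = (M * H) * (x * N * ε * (C / (2 * (C + 1)))) := by
    rw [hε']
    field_simp
    ring
  have e2 : C / (2 * (C + 1)) ≤ 1 / 2 := by
    rw [div_le_div_iff₀ (by positivity) (by positivity)]
    linarith
  have h3 : (M : ℝ) * (H * ∑ m ∈ Icc 1 x, ‖S m‖) ≤ (M * H) * (ε * N * x) := by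
    refine htot.trans ?_
    rw [e1]
    calc (Z : ℝ) * (η * x * (M * (2 * H))) + (M * H) * (x * N * ε * (C / (2 * (C + 1)))) ≤
          (10 * N) * (η * x * (M * (2 * H))) + (M * H) * (x * N * ε * (1 / 2)) := by
          apply add_le_add
          · exact mul_le_mul_of_nonneg_right hZr (by positivity)
          · apply mul_le_mul_of_nonneg_left _ (by positivity)
            exact mul_le_mul_of_nonneg_left e2 (by positivity)
      _ = (M * H) * (ε * N * x) := by rw [hη]; ring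
  rw [← mul_assoc] at h3
  exact le_of_mul_le_mul_left h3 (by positivity)

/-- all but few shifts in a family of short shifts of nearly minimal energy -/
theorem few_short (p : ℕ) (C : ℝ) (B L : ℕ) (ε : ℝ) (hε : 0 < ε) :
    ∃ ε' : ℝ, 0 < ε' ∧ ∃ N₀ : ℕ, ∀ h : ℕ → ℂ, (∀ n, ‖h n‖ ≤ 1) → ∀ W₀ N : ℕ, N₀ ≤ N → (∀ X : ℕ, N ≤ X → WS h ε' W₀ X) →
      ∀ H : ℕ, W₀ ≤ H → 1 ≤ H → H ≤ N → ∀ (x : ℕ) (s : ℕ → ℤ), (∀ m ∈ Icc 1 x, |s m| ≤ H) →
      (energy p x s : ℝ) * H ≤ C * (x : ℝ) ^ (2 * p) → ∀ (a : ℕ → ℕ) (b : ℕ → ℤ) (g : ℕ → ℕ → ℂ),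
      (∀ l < L, 1 ≤ a l) → (∀ l < L, b l ≤ B * N) → (∀ l < L, ∀ n, ‖g l n‖ ≤ 1) →
      ∀ (Bad : ℕ → Prop) [DecidablePred Bad], (∀ m ∈ Icc 1 x, Bad m → ∃ l < L, ∃ X : ℕ, a l * X ≤ B * N ∧
        ε * N < ‖∑ n ∈ Icc 1 X, g l n * exI h (a l * n + b l + s m)‖) →
      (((Icc 1 x).filter Bad).card : ℝ) ≤ ε * x := by
  set J : ℕ := ⌈16 * (B + 1) / ε⌉₊ + 1 with hJ
  set ε1 : ℝ := ε ^ 2 / (4 * (B + 1) * (L + 1) * (2 * J + 1)) with hε1
  have hε10 : 0 < ε1 := by positivity
  obtain ⟨ε', hε'0, hl1⟩ := l1_short p (max C 0) (le_max_right _ _) ε1 hε10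
  refine ⟨ε', hε'0, ⌈8 / ε⌉₊ + 1, fun h hb W₀ N hN hW H hH1 hHp hH2 x s hs hen a b g ha hbl hg Bad _ hBad => ?_⟩
  have hN0 : (0 : ℝ) < N := by exact_mod_cast (by omega : 0 < N)
  have hNε : 8 ≤ ε * N := by
    have h1 : 8 / ε ≤ N := (Nat.le_ceil _).trans (by exact_mod_cast (by omega : ⌈8 / ε⌉₊ ≤ N))
    rw [div_le_iff₀ hε] at h1
    linarith
  set D : ℕ := ⌊ε * N / 2⌋₊ with hD
  have hD1 : (D : ℝ) ≤ ε * N / 2 := Nat.floor_le (by positivity)
  have hD2 : ε * N / 4 ≤ D := by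
    have := Nat.lt_floor_add_one (ε * N / 2)
    rw [← hD] at this
    linarith
  have hDpos : 1 ≤ D := by
    have : (1 : ℝ) ≤ D := by linarith
    exact_mod_cast this
  have hD0 : (0 : ℤ) < D := by exact_mod_cast hDpos
  set N' : ℕ := 2 * (B + 1) * N with hN'
  have hNN' : N ≤ N' := by
    rw [hN']
    nlinarith [Nat.zero_le (B * N)]
  have hJ1 : (N' : ℤ) ≤ (J - 1) * D := by
    have h1 : (N' : ℝ) ≤ ((J : ℝ) - 1) * D := by
      rw [hJ, hN']
      push_cast
      have h2 : 16 * ((B : ℝ) + 1) / ε ≤ ⌈16 * ((B : ℝ) + 1) / ε⌉₊ := Nat.le_ceil _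
      calc 2 * ((B : ℝ) + 1) * N ≤ 16 * ((B : ℝ) + 1) / ε * (ε * N / 4) := by
            have : 16 * ((B : ℝ) + 1) / ε * (ε * N / 4) = 4 * (B + 1) * N := by
              field_simp
              ring
            rw [this]
            apply mul_le_mul_of_nonneg_right _ hN0.le
            linarith [Nat.cast_nonneg (α := ℝ) B]
        _ ≤ ⌈16 * ((B : ℝ) + 1) / ε⌉₊ * D := mul_le_mul h2 hD2 (by positivity) (by positivity)
        _ = _ := by ring
    exact_mod_cast h1
  have hen' : (energy p x s : ℝ) * H ≤ max C 0 * (x : ℝ) ^ (2 * p) :=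
    hen.trans (mul_le_mul_of_nonneg_right (le_max_left _ _) (by positivity))
  set G : ℕ → ℤ → ℤ → ℂ := fun l j k => if k ≤ j * D then frm (a l) (b l) (g l) k else 0 with hG
  set Q : ℕ → ℤ → ℕ → ℝ := fun l j m => ‖∑ k ∈ Ioc (-(H : ℤ)) N', G l j k * exI h (k + s m)‖ with hQ
  have hQ1 : ∀ l < L, ∀ j, ∑ m ∈ Icc 1 x, Q l j m ≤ ε1 * N' * x := by
    intro l hl j
    apply hl1 h hb W₀ N' (hW _ (by omega)) H hH1 hHp (hH2.trans hNN') x s hs hen'
    intro k
    rw [hG]
    simp only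
    split_ifs
    · exact frm_norm _ _ _ (hg l hl) k
    · simp
  have hQ2 : ∀ m ∈ Icc 1 x, Bad m → ∃ l < L, ∃ j ∈ Icc (-(J : ℤ)) J, ε * N / 2 < Q l j m := by
    intro m hm hbad
    obtain ⟨l, hl, X, hX, h1⟩ := hBad m hm hbad
    have hXr : (a l : ℤ) * X ≤ B * N := by exact_mod_cast hX
    have hbl' := hbl l hl
    have hK : b l + a l * X ≤ N' := by
      rw [hN']
      push_cast
      have h2 : (0 : ℤ) ≤ B * N := by positivity
      have h3 : (0 : ℤ) ≤ N := by positivity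
      nlinarith
    have hsm := hs m hm
    rw [frm_int h (a l) (ha l hl) (b l) (g l) (s m) X H N' hsm hK] at h1
    have h2 : ∑ k ∈ Ioc (-(H : ℤ)) N', (if k ≤ b l + a l * X then frm (a l) (b l) (g l) k else 0) * exI h (k + s m) =
        ∑ k ∈ Ioc (-(H : ℤ)) N', (if k ≤ b l + a l * X then frm (a l) (b l) (g l) k * exI h (k + s m) else 0) := by
      apply sum_congr rfl
      intro k _
      rw [ite_mul, zero_mul]
    rw [h2] at h1
    have h3 := grid_int (fun k => frm (a l) (b l) (g l) k * exI h (k + s m)) (fun k => by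
      rw [norm_mul]
      exact mul_le_one₀ (frm_norm _ _ _ (hg l hl) k) (norm_nonneg _) (exI_norm1 h hb _)) (Ioc (-(H : ℤ)) N')
      (b l + a l * X) D hDpos
    set K : ℤ := b l + a l * X with hKd
    refine ⟨l, hl, K / D, ?_, ?_⟩
    · rw [mem_Icc]
      have hKH : -(H : ℤ) < K := by
        by_contra hcon
        have h4 : ∑ k ∈ Ioc (-(H : ℤ)) N', (if k ≤ K then frm (a l) (b l) (g l) k * exI h (k + s m) else 0) = 0 := by
          apply sum_eq_zero
          intro k hk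
          rw [mem_Ioc] at hk
          rw [if_neg]
          omega
        rw [h4, norm_zero] at h1
        linarith [mul_pos hε hN0]
      have hJ2 : (N' : ℤ) ≤ (J : ℤ) * D := by nlinarith
      constructor
      · rw [Int.le_ediv_iff_mul_le hD0]
        have : (N : ℤ) ≤ N' := by exact_mod_cast hNN'
        have h5 : (H : ℤ) ≤ N := by exact_mod_cast hH2
        nlinarith
      · have h6 : K / D ≤ N' / D := Int.ediv_le_ediv hD0 hK
        have h7 : (N' : ℤ) / D ≤ J := by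
          apply Int.ediv_le_of_le_mul hD0
          exact hJ2
        omega
    · rw [hQ, hG]
      simp only
      have h4 : ∑ k ∈ Ioc (-(H : ℤ)) N', (if k ≤ K / D * D then frm (a l) (b l) (g l) k else 0) * exI h (k + s m) =
          ∑ k ∈ Ioc (-(H : ℤ)) N', (if k ≤ K / D * D then frm (a l) (b l) (g l) k * exI h (k + s m) else 0) := by
        apply sum_congr rfl
        intro k _
        rw [ite_mul, zero_mul]
      rw [h4]
      linarith
  have hcount : (((Icc 1 x).filter Bad).card : ℝ) * (ε * N / 2) ≤ L * ((2 * J + 1) * (ε1 * N' * x)) := by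
    calc (((Icc 1 x).filter Bad).card : ℝ) * (ε * N / 2) = ∑ _m ∈ (Icc 1 x).filter Bad, ε * N / 2 := by
          rw [sum_const, nsmul_eq_mul]
      _ ≤ ∑ m ∈ (Icc 1 x).filter Bad, ∑ l ∈ range L, ∑ j ∈ Icc (-(J : ℤ)) J, Q l j m := by
          apply sum_le_sum
          intro m hm
          rw [mem_filter] at hm
          obtain ⟨l, hl, j, hj, h1⟩ := hQ2 m hm.1 hm.2
          refine h1.le.trans ?_
          refine le_trans ?_ (single_le_sum (f := fun l => ∑ j ∈ Icc (-(J : ℤ)) J, Q l j m)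
            (fun _ _ => sum_nonneg fun _ _ => norm_nonneg _) (mem_range.2 hl))
          exact single_le_sum (f := fun j => Q l j m) (fun _ _ => norm_nonneg _) hj
      _ ≤ ∑ m ∈ Icc 1 x, ∑ l ∈ range L, ∑ j ∈ Icc (-(J : ℤ)) J, Q l j m :=
          sum_le_sum_of_subset_of_nonneg (filter_subset _ _) fun _ _ _ =>
            sum_nonneg fun _ _ => sum_nonneg fun _ _ => norm_nonneg _
      _ = ∑ l ∈ range L, ∑ j ∈ Icc (-(J : ℤ)) J, ∑ m ∈ Icc 1 x, Q l j m := by
          rw [sum_comm]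
          apply sum_congr rfl
          intro l _
          rw [sum_comm]
      _ ≤ ∑ l ∈ range L, ∑ j ∈ Icc (-(J : ℤ)) J, ε1 * N' * x := by
          apply sum_le_sum
          intro l hl
          rw [mem_range] at hl
          apply sum_le_sum
          intro j _
          exact hQ1 l hl j
      _ = _ := by
          rw [sum_const, sum_const, card_range, nsmul_eq_mul, nsmul_eq_mul, Int.card_Icc]
          have : ((((J : ℤ) + 1 - -(J : ℤ)).toNat : ℕ) : ℝ) = 2 * J + 1 := by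
            have h1 : ((J : ℤ) + 1 - -(J : ℤ)).toNat = 2 * J + 1 := by omega
            rw [h1]
            push_cast
            ring
          rw [this]
  have h1 : (L : ℝ) * ((2 * J + 1) * (ε1 * N' * x)) ≤ ε * x * (ε * N / 2) := by
    have e1 : (L : ℝ) * ((2 * J + 1) * (ε1 * N' * x)) = (L / (L + 1)) * (ε * x * (ε * N / 2)) := by
      rw [hε1, hN']
      push_cast
      field_simp
      ring
    rw [e1]
    have e2 : (L : ℝ) / (L + 1) ≤ 1 := by
      rw [div_le_one (by positivity)]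
      linarith
    have e3 : 0 ≤ ε * x * (ε * N / 2) := by positivity
    nlinarith
  exact le_of_mul_le_mul_right (hcount.trans h1) (by positivity)


end Pool.Agent.Helper82K9.EL
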