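import Pool.Agent.Helper82K9.EL.EL2

set_option autoImplicit false

/-! Families of shifts of three kinds, at one scale: general, polynomial values, primes; adapted from
`Pool.Agent.TH823.MRS.Circ5` (starting files). -/

namespace Pool.Agent.Helper82K9.EL

open Finset
open Pool.Agent.Helper602.MK (PP)
open Pool.Agent.H373R2.T7 (exI energy)
open Pool.Agent.TH823.MRS (nu nu_eq nu_mono pp_family pp_lower)

/-- small correlations for all the lengths -/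
def Sm (h : ℕ → ℂ) (B N : ℕ) (ε : ℝ) (a : ℕ) (b : ℤ) (g : ℕ → ℂ) (s : ℤ) : Prop :=
  ∀ X : ℕ, a * X ≤ B * N → ‖∑ n ∈ Icc 1 X, g n * exI h (a * n + b + s)‖ ≤ ε * N

/-- the function is good at the scale `N` -/
def HW (h : ℕ → ℂ) (ε : ℝ) (W₀ N : ℕ) : Prop := (∀ n, ‖h n‖ ≤ 1) ∧ ∀ X : ℕ, N ≤ X → WS h ε W₀ X

lemma HW.mono {h : ℕ → ℂ} {ε ε' : ℝ} {W₀ W₁ N N' : ℕ} (H : HW h ε W₀ N) (h1 : ε ≤ ε') (h2 : W₀ ≤ W₁) (h3 : N ≤ N') :
    HW h ε' W₁ N' := by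
  refine ⟨H.1, fun X hX W hW1 hW2 α => (H.2 X (h3.trans hX) W (h2.trans hW1) hW2 α).trans ?_⟩
  gcongr

lemma gen (B : ℕ) (ε : ℝ) (hε : 0 < ε) (p : ℕ) (C : ℝ) :
    ∃ ε' : ℝ, 0 < ε' ∧ ∃ N₀ : ℕ, ∀ (h : ℕ → ℂ) (W₀ N : ℕ), N₀ ≤ N → HW h ε' W₀ N →
      ∀ H : ℕ, W₀ ≤ H → 1 ≤ H → H ≤ N → ∀ (x : ℕ) (s : ℕ → ℤ), (∀ m ∈ Icc 1 x, |s m| ≤ H) →
      (energy p x s : ℝ) * H ≤ C * (x : ℝ) ^ (2 * p) → ∀ (a : ℕ) (b : ℤ) (g : ℕ → ℂ),
      1 ≤ a → b ≤ B * N → (∀ n, ‖g n‖ ≤ 1) →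
      nu (Icc 1 x) (fun m => ¬ Sm h B N ε a b g (s m)) ≤ ε * x := by
  classical
  obtain ⟨ε', hε', N₀, h1⟩ := few_short p C B 1 ε hε
  refine ⟨ε', hε', N₀, fun h W₀ N hN hW H hH hHp hHN x s hs hen a b g ha hbl hg => ?_⟩
  rw [nu_eq]
  refine h1 h hW.1 W₀ N hN hW.2 H hH hHp hHN x s hs hen (fun _ => a) (fun _ => b) (fun _ => g) (fun _ _ => ha)
    (fun _ _ => hbl) (fun _ _ => hg) _ ?_
  intro m _ hm
  unfold Sm at hm
  push Not at hm
  obtain ⟨X, hX, h2⟩ := hm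
  exact ⟨0, by norm_num, X, hX, h2⟩

lemma pol (B : ℕ) (ε : ℝ) (hε : 0 < ε) (f : Polynomial ℤ) (hd : 1 ≤ f.natDegree) (K : ℕ) :
    ∃ ε' : ℝ, 0 < ε' ∧ ∃ N₀ : ℕ, ∀ (h : ℕ → ℂ) (W₀ N : ℕ), N₀ ≤ N → HW h ε' W₀ N → ∀ H : ℕ, W₀ ≤ H → 1 ≤ H → H ≤ N →
      ∀ x : ℕ, x ^ f.natDegree ≤ K * H → H ≤ K * x ^ f.natDegree → ∀ (a : ℕ) (b : ℤ) (g : ℕ → ℂ),
      1 ≤ a → b ≤ B * N → (∀ n, ‖g n‖ ≤ 1) →
      nu (Icc 1 x) (fun m => ¬ Sm h B N ε a b g (f.eval (m : ℤ))) ≤ ε * x := by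
  obtain ⟨p, C1, hC1, h1⟩ := Pool.Agent.TH823.Fam.energy_poly' f hd
  obtain ⟨A, hA⟩ := Pool.Agent.TH823.Fam.poly_size f
  set A1 : ℕ := A * K + 1 with hA1
  have hA10 : (0 : ℝ) < A1 := by rw [hA1]; positivity
  have hA11 : (1 : ℝ) ≤ A1 := by rw [hA1]; push_cast; nlinarith [(by positivity : (0 : ℝ) ≤ A * K)]
  obtain ⟨ε', hε', N₀, h2⟩ := gen B (ε / A1) (by positivity) p (A1 * K * C1)
  refine ⟨ε', hε', N₀, fun h W₀ N hN hW H hH hHp hHN x hx1 hx2 a b g ha hbl hg => ?_⟩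
  have hx : 1 ≤ x := by
    by_contra hcon
    have : x = 0 := by omega
    subst this
    rw [zero_pow (by omega), mul_zero] at hx2
    omega
  have hle : ∀ u : ℕ, u ≤ A1 * u := fun u => Nat.le_mul_of_pos_left _ (by omega)
  have h3 := h2 h W₀ (A1 * N) (hN.trans (hle N)) (hW.mono le_rfl le_rfl (hle N)) (A1 * H) (hH.trans (hle H))
    (hHp.trans (hle H)) (Nat.mul_le_mul_left _ hHN) x
    (fun m => f.eval (m : ℤ)) (by
      intro m hm
      refine (hA x hx m hm).trans ?_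
      have h4 : (x : ℤ) ^ f.natDegree ≤ K * H := by exact_mod_cast hx1
      have h5 : (A : ℤ) * (x : ℤ) ^ f.natDegree ≤ A * (K * H) := mul_le_mul_of_nonneg_left h4 (by positivity)
      rw [hA1]
      push_cast
      have : (0 : ℤ) ≤ H := by positivity
      nlinarith) (by
      have h4 := h1 x hx 0
      simp only [zero_add] at h4
      have h5 : (H : ℝ) ≤ K * (x : ℝ) ^ f.natDegree := by exact_mod_cast hx2
      have h6 : (0 : ℝ) ≤ (energy p x (fun m => f.eval (m : ℤ)) : ℝ) := by positivity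
      push_cast
      calc (energy p x (fun m => f.eval (m : ℤ)) : ℝ) * (A1 * H) ≤
            (energy p x (fun m => f.eval (m : ℤ)) : ℝ) * (A1 * (K * (x : ℝ) ^ f.natDegree)) :=
            mul_le_mul_of_nonneg_left (mul_le_mul_of_nonneg_left h5 hA10.le) h6
        _ = A1 * K * ((energy p x (fun m => f.eval (m : ℤ)) : ℝ) * (x : ℝ) ^ f.natDegree) := by ring
        _ ≤ A1 * K * (C1 * (x : ℝ) ^ (2 * p)) := mul_le_mul_of_nonneg_left h4 (by positivity)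
        _ = _ := by ring) a b g ha (by
      refine hbl.trans ?_
      have : ((B * N : ℕ) : ℤ) ≤ ((B * (A1 * N) : ℕ) : ℤ) := by exact_mod_cast Nat.mul_le_mul_left _ (hle N)
      push_cast at this ⊢
      exact this) hg
  refine le_trans (nu_mono ?_) (h3.trans ?_)
  · intro m _ hm hcon
    apply hm
    intro X hX
    have h4 := hcon X (hX.trans (Nat.mul_le_mul_left _ (hle N)))
    refine h4.trans (le_of_eq ?_)
    push_cast
    field_simp
  · apply mul_le_mul_of_nonneg_right _ (Nat.cast_nonneg _)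
    exact div_le_self hε.le hA11

lemma pri (B : ℕ) (ε : ℝ) (hε : 0 < ε) :
    ∃ ε' : ℝ, 0 < ε' ∧ ∃ H₀ N₀ : ℕ, ∀ (h : ℕ → ℂ) (W₀ N : ℕ), N₀ ≤ N → HW h ε' W₀ N → ∀ H : ℕ, W₀ ≤ H → H₀ ≤ H → H ≤ N →
      ∀ (a : ℕ) (b : ℤ) (g : ℕ → ℂ), 1 ≤ a → b ≤ B * N → (∀ n, ‖g n‖ ≤ 1) →
      nu ((Icc 1 H).filter Nat.Prime) (fun q => ¬ Sm h B N ε a b g (q : ℤ)) ≤ ε * Nat.primeCounting H := by
  classical
  obtain ⟨C, hC, k0, hk0, hfam⟩ := pp_family
  obtain ⟨k1, hk1, hlow⟩ := pp_lower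
  obtain ⟨ε', hε', N₀, h1⟩ := gen B (ε / 2) (by positivity) 2 C
  obtain ⟨n1, hlog⟩ := Pool.Agent.TH823.Fam.log_pow_small 4
  refine ⟨ε', hε', k0 + k1 + n1 + ⌈(64 / ε ^ 2) ^ 2⌉₊, N₀, fun h W₀ N hN hW H hWH hH hHN a b g ha hbl hg => ?_⟩
  obtain ⟨s, hs1, hs2, hs3, hs4⟩ := hfam H (by omega)
  have h2 := h1 h W₀ N hN hW H hWH (by omega) hHN (PP H).card s hs1 hs2 a b g ha hbl hg
  have h3 := hs3 (fun q : ℕ => ¬ Sm h B N (ε / 2) a b g (q : ℤ))
  have h4 : (((PP H).filter (fun q : ℕ => ¬ Sm h B N (ε / 2) a b g (q : ℤ))).card : ℝ) ≤ ε / 2 * (PP H).card := by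
    rw [h3]
    refine le_trans (le_of_eq ?_) h2
    rw [nu_eq]
    congr 1
    congr 1
    apply filter_congr
    intro m hm
    rw [Int.toNat_of_nonneg (hs4 m hm)]
  have hN0 : (0 : ℝ) ≤ N := Nat.cast_nonneg _
  have hsm : ∀ q : ℤ, Sm h B N (ε / 2) a b g q → Sm h B N ε a b g q := by
    intro q hq X hX
    refine (hq X hX).trans ?_
    nlinarith
  have hHr : (3 : ℝ) ≤ H := by exact_mod_cast (by omega : 3 ≤ H)
  have hlog0 : 0 < Real.log H := Real.log_pos (by linarith)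
  have hpc : Nat.primeCounting H = ((Icc 1 H).filter Nat.Prime).card := by
    rw [Nat.primeCounting, Nat.primeCounting', Nat.count_eq_card_filter_range]
    congr 1
    ext p
    simp only [mem_filter, mem_range, mem_Icc]
    constructor
    · rintro ⟨h5, h6⟩
      exact ⟨⟨h6.one_lt.le, by omega⟩, h6⟩
    · rintro ⟨h5, h6⟩
      exact ⟨by omega, h6⟩
  have hPP : PP H ⊆ (Icc 1 H).filter Nat.Prime := by
    intro p hp
    unfold PP at hp
    rw [mem_filter] at hp ⊢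
    exact ⟨hp.1, hp.2.1⟩
  have hPPc : ((PP H).card : ℝ) ≤ Nat.primeCounting H := by
    rw [hpc]
    exact_mod_cast card_le_card hPP
  -- the small primes
  have hsq : (Nat.sqrt H : ℝ) ≤ ε / 2 * Nat.primeCounting H := by
    have h5 := hlow H (by omega)
    have h6 := hlog H (by omega)
    have h7 : (64 / ε ^ 2) ^ 2 ≤ (H : ℝ) :=
      (Nat.le_ceil _).trans (by exact_mod_cast (by omega : ⌈(64 / ε ^ 2) ^ 2⌉₊ ≤ H))
    have h8 : (Nat.sqrt H : ℝ) ^ 2 ≤ H := by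
      have := Nat.sqrt_le' H
      exact_mod_cast this
    have h9 : 64 / ε ^ 2 * Real.log H ^ 2 ≤ H := by
      have h10 : (64 / ε ^ 2 * Real.log H ^ 2) ^ 2 ≤ (H : ℝ) ^ 2 := by
        calc (64 / ε ^ 2 * Real.log H ^ 2) ^ 2 = (64 / ε ^ 2) ^ 2 * Real.log H ^ 4 := by ring
          _ ≤ (H : ℝ) * H := by
              apply mul_le_mul h7 _ (by positivity) (by linarith)
              have : 0 ≤ Real.log H ^ 4 := by positivity
              linarith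
          _ = (H : ℝ) ^ 2 := by ring
      exact (pow_le_pow_iff_left₀ (by positivity) (by linarith) (by norm_num)).1 h10
    have h10 : (Nat.sqrt H : ℝ) * (8 / ε * Real.log H) ≤ H := by
      have h11 : ((Nat.sqrt H : ℝ) * (8 / ε * Real.log H)) ^ 2 ≤ (H : ℝ) ^ 2 := by
        calc ((Nat.sqrt H : ℝ) * (8 / ε * Real.log H)) ^ 2 = (Nat.sqrt H : ℝ) ^ 2 * (64 / ε ^ 2 * Real.log H ^ 2) := by ring
          _ ≤ (H : ℝ) * H := mul_le_mul h8 h9 (by positivity) (by linarith)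
          _ = (H : ℝ) ^ 2 := by ring
      exact (pow_le_pow_iff_left₀ (by positivity) (by linarith) (by norm_num)).1 h11
    have h11 : (Nat.sqrt H : ℝ) ≤ ε / 8 * (H / Real.log H) := by
      rw [← mul_div_assoc, le_div_iff₀ hlog0]
      have e1 : (Nat.sqrt H : ℝ) * Real.log H = ε / 8 * (Nat.sqrt H * (8 / ε * Real.log H)) := by
        field_simp
      rw [e1]
      exact mul_le_mul_of_nonneg_left h10 (by positivity)
    refine h11.trans ?_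
    calc ε / 8 * (H / Real.log H) ≤ ε / 8 * (4 * (PP H).card) := mul_le_mul_of_nonneg_left h5 (by positivity)
      _ = ε / 2 * (PP H).card := by ring
      _ ≤ _ := mul_le_mul_of_nonneg_left hPPc (by positivity)
  have hsub : ((Icc 1 H).filter Nat.Prime).filter (fun q : ℕ => ¬ Sm h B N ε a b g (q : ℤ)) ⊆
      (PP H).filter (fun q : ℕ => ¬ Sm h B N (ε / 2) a b g (q : ℤ)) ∪ Icc 1 (Nat.sqrt H) := by
    intro q hq
    rw [mem_filter, mem_filter, mem_Icc] at hq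
    rw [mem_union]
    by_cases h6 : H < q ^ 2
    · left
      unfold PP
      rw [mem_filter, mem_filter, mem_Icc]
      exact ⟨⟨hq.1.1, hq.1.2, h6⟩, fun hcon => hq.2 (hsm _ hcon)⟩
    · right
      rw [mem_Icc]
      refine ⟨hq.1.1.1, ?_⟩
      rw [Nat.le_sqrt]
      nlinarith
  rw [nu_eq]
  have h5 := (card_le_card hsub).trans (card_union_le _ _)
  rw [Nat.card_Icc, Nat.add_sub_cancel] at h5
  calc ((((Icc 1 H).filter Nat.Prime).filter (fun q : ℕ => ¬ Sm h B N ε a b g (q : ℤ))).card : ℝ) ≤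
        ((PP H).filter (fun q : ℕ => ¬ Sm h B N (ε / 2) a b g (q : ℤ))).card + Nat.sqrt H := by exact_mod_cast h5
    _ ≤ ε / 2 * (PP H).card + ε / 2 * Nat.primeCounting H := add_le_add h4 hsq
    _ ≤ ε / 2 * Nat.primeCounting H + ε / 2 * Nat.primeCounting H := by
        apply add_le_add _ le_rfl
        exact mul_le_mul_of_nonneg_left hPPc (by positivity)
    _ = _ := by ring


end Pool.Agent.Helper82K9.EL
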