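import Pool.Agent.Helper82K9.EL.EL1

set_option autoImplicit false

/-! Real multiplicative functions as means of completely multiplicative functions with values `1` and `-1`. -/

namespace Pool.Agent.Helper82K9.EL

open Finset
open Pool.Agent.Y872.L (CM)
open Pool.Agent.R512.U (Far)

/-- the sign at `p` -/
def sg (S : Finset ℕ) (p : ℕ) : ℤ := if p ∈ S then -1 else 1

lemma sg_cases (S : Finset ℕ) (p : ℕ) : sg S p = 1 ∨ sg S p = -1 := by
  unfold sg
  split_ifs
  · right; rfl
  · left; rfl

/-- the completely multiplicative function with the values `sg S p` at the primes -/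
noncomputable def xi (S : Finset ℕ) (n : ℕ) : ℤ := if n = 0 then 0 else n.factorization.prod fun p k => sg S p ^ k

lemma xi_cm (S : Finset ℕ) : CM (xi S) := by
  have hmul : ∀ m n : ℕ, xi S (m * n) = xi S m * xi S n := by
    intro m n
    unfold xi
    by_cases hm : m = 0
    · simp [hm]
    by_cases hn : n = 0
    · simp [hn]
    rw [if_neg (mul_ne_zero hm hn), if_neg hm, if_neg hn, Nat.factorization_mul hm hn]
    exact Finsupp.prod_add_index' (fun _ => pow_zero _) fun _ _ _ => pow_add _ _ _
  refine ⟨by simp [xi], by simp [xi], hmul, fun n hn => ?_⟩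
  unfold xi
  rw [if_neg hn.ne']
  unfold Finsupp.prod
  induction n.factorization.support using Finset.induction_on with
  | empty => left; simp
  | insert p T hp ih =>
    rw [prod_insert hp]
    simp only at ih ⊢
    have h1 : sg S p ^ n.factorization p = 1 ∨ sg S p ^ n.factorization p = -1 := by
      rcases sg_cases S p with h | h
      · rw [h, one_pow]; left; rfl
      · rw [h]; exact neg_one_pow_eq_or ℤ _
    rcases h1 with h1 | h1 <;> rcases ih with h2 | h2 <;> rw [h1, h2] <;> norm_num

lemma xi_prime (S : Finset ℕ) {p : ℕ} (hp : p.Prime) : xi S p = sg S p := by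
  unfold xi
  rw [if_neg hp.ne_zero, hp.factorization]
  rw [Finsupp.prod_single_index (h := fun p k => sg S p ^ k) (pow_zero _)]
  exact pow_one _

lemma xi_sqfree (S : Finset ℕ) {b : ℕ} (hb : Squarefree b) : xi S b = ∏ p ∈ b.primeFactors, sg S p := by
  unfold xi
  rw [if_neg hb.ne_zero]
  unfold Finsupp.prod
  rw [Nat.support_factorization]
  refine prod_congr rfl fun p hp => ?_
  have h1 := (Nat.squarefree_iff_factorization_le_one hb.ne_zero).1 hb p
  have h2 : 0 < b.factorization p := by
    rw [Nat.mem_primeFactors] at hp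
    exact hp.1.factorization_pos_of_dvd hp.2.2 hp.2.1
  have h3 : b.factorization p = 1 := by omega
  simp only
  rw [h3, pow_one]

/-- the weight of `S` among the subsets of `P` -/
noncomputable def wt (f : ℕ → ℝ) (P S : Finset ℕ) : ℝ := ∏ p ∈ P, (1 + (sg S p : ℝ) * f p) / 2

lemma sum_ins (f : ℕ → ℝ) {P : Finset ℕ} {p : ℕ} (hp : p ∉ P) (G : Finset ℕ → ℝ) :
    ∑ S ∈ (insert p P).powerset, wt f (insert p P) S * G S =
      ∑ S ∈ P.powerset, wt f P S * ((1 + f p) / 2 * G S + (1 - f p) / 2 * G (insert p S)) := by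
  rw [sum_powerset_insert hp, ← sum_add_distrib]
  refine sum_congr rfl fun S hS => ?_
  rw [mem_powerset] at hS
  have hpS : p ∉ S := fun h => hp (hS h)
  have h1 : wt f (insert p P) S = (1 + f p) / 2 * wt f P S := by
    unfold wt
    rw [prod_insert hp]
    congr 2
    unfold sg
    rw [if_neg hpS]
    push_cast
    ring
  have h2 : wt f (insert p P) (insert p S) = (1 - f p) / 2 * wt f P S := by
    unfold wt
    rw [prod_insert hp]
    congr 1
    · unfold sg
      rw [if_pos (mem_insert_self _ _)]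
      push_cast
      ring
    · refine prod_congr rfl fun r hr => ?_
      have : r ≠ p := fun h => hp (h ▸ hr)
      unfold sg
      simp only [mem_insert, this, false_or]
  rw [h1, h2]
  ring

lemma sg_ins {S : Finset ℕ} {p r : ℕ} (h : r ≠ p) : sg (insert p S) r = sg S r := by
  unfold sg
  simp only [mem_insert, h, false_or]

lemma wt_nonneg {f : ℕ → ℝ} (hf : ∀ n, |f n| ≤ 1) (P S : Finset ℕ) : 0 ≤ wt f P S := by
  unfold wt
  refine prod_nonneg fun p _ => ?_
  have h1 := abs_le.1 (hf p)
  rcases sg_cases S p with h | h <;> rw [h] <;> push_cast <;> linarith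

lemma wt_sum (f : ℕ → ℝ) (P : Finset ℕ) : ∑ S ∈ P.powerset, wt f P S = 1 := by
  induction P using Finset.induction_on with
  | empty => simp [wt]
  | insert p P hp ih =>
    have h1 := sum_ins f hp (fun _ => 1)
    simp only [mul_one] at h1
    rw [h1]
    refine Eq.trans (sum_congr rfl fun S _ => ?_) ih
    ring

lemma wt_prod (f : ℕ → ℝ) (P : Finset ℕ) : ∀ T ⊆ P,
    ∑ S ∈ P.powerset, wt f P S * ∏ p ∈ T, (sg S p : ℝ) = ∏ p ∈ T, f p := by
  induction P using Finset.induction_on with
  | empty =>
    intro T hT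
    rw [subset_empty] at hT
    subst hT
    simp [wt]
  | insert p P hp ih =>
    intro T hT
    rw [sum_ins f hp]
    by_cases hpT : p ∈ T
    · have hT0 : T.erase p ⊆ P := by
        intro r hr
        rw [mem_erase] at hr
        rcases mem_insert.1 (hT hr.2) with h | h
        · exact absurd h hr.1
        · exact h
      rw [← mul_prod_erase T f hpT, ← ih _ hT0, mul_sum]
      refine sum_congr rfl fun S hS => ?_
      rw [mem_powerset] at hS
      have hpS : p ∉ S := fun h => hp (hS h)
      rw [← mul_prod_erase T _ hpT, ← mul_prod_erase T _ hpT]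
      have h1 : ∏ r ∈ T.erase p, (sg (insert p S) r : ℝ) = ∏ r ∈ T.erase p, (sg S r : ℝ) := by
        refine prod_congr rfl fun r hr => ?_
        rw [sg_ins (mem_erase.1 hr).1]
      rw [h1]
      have h2 : sg S p = 1 := by unfold sg; rw [if_neg hpS]
      have h3 : sg (insert p S) p = -1 := by unfold sg; rw [if_pos (mem_insert_self _ _)]
      rw [h2, h3]
      push_cast
      ring
    · have hT0 : T ⊆ P := by
        intro r hr
        rcases mem_insert.1 (hT hr) with h | h
        · exact absurd (h ▸ hr) hpT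
        · exact h
      rw [← ih _ hT0]
      refine sum_congr rfl fun S _ => ?_
      have h1 : ∏ r ∈ T, (sg (insert p S) r : ℝ) = ∏ r ∈ T, (sg S r : ℝ) := by
        refine prod_congr rfl fun r hr => ?_
        rw [sg_ins (fun h => hpT (by rw [← h]; exact hr))]
      rw [h1]
      ring

lemma wt_var (f : ℕ → ℝ) (c : ℕ → ℝ) (P : Finset ℕ) :
    ∑ S ∈ P.powerset, wt f P S * (∑ p ∈ P, c p * ((sg S p : ℝ) - f p)) ^ 2 = ∑ p ∈ P, c p ^ 2 * (1 - f p ^ 2) := by
  induction P using Finset.induction_on with
  | empty => simp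
  | insert p P hp ih =>
    rw [sum_ins f hp, sum_insert hp, ← ih]
    have h0 : c p ^ 2 * (1 - f p ^ 2) = ∑ S ∈ P.powerset, wt f P S * (c p ^ 2 * (1 - f p ^ 2)) := by
      rw [← sum_mul, wt_sum, one_mul]
    rw [h0, ← sum_add_distrib]
    refine sum_congr rfl fun S hS => ?_
    rw [mem_powerset] at hS
    have hpS : p ∉ S := fun h => hp (hS h)
    rw [sum_insert hp, sum_insert hp]
    have h1 : ∑ r ∈ P, c r * ((sg (insert p S) r : ℝ) - f r) = ∑ r ∈ P, c r * ((sg S r : ℝ) - f r) := by
      refine sum_congr rfl fun r hr => ?_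
      rw [sg_ins (fun h => hp (by rw [← h]; exact hr))]
    rw [h1]
    have h2 : sg S p = 1 := by unfold sg; rw [if_neg hpS]
    have h3 : sg (insert p S) p = -1 := by unfold sg; rw [if_pos (mem_insert_self _ _)]
    rw [h2, h3]
    push_cast
    ring

/-- Chebyshev's inequality -/
lemma cheb {f : ℕ → ℝ} (hf : ∀ n, |f n| ≤ 1) (c : ℕ → ℝ) (P : Finset ℕ) (V t : ℝ) (ht : 0 < t)
    (hV : ∑ p ∈ P, c p ^ 2 ≤ V) (Bad : Finset ℕ → Prop) [DecidablePred Bad]
    (hB : ∀ S ∈ P.powerset, Bad S → t ≤ |∑ p ∈ P, c p * ((sg S p : ℝ) - f p)|) :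
    ∑ S ∈ P.powerset, (if Bad S then wt f P S else 0) ≤ V / t ^ 2 := by
  rw [le_div_iff₀ (by positivity), sum_mul]
  calc ∑ S ∈ P.powerset, (if Bad S then wt f P S else 0) * t ^ 2 ≤
        ∑ S ∈ P.powerset, wt f P S * (∑ p ∈ P, c p * ((sg S p : ℝ) - f p)) ^ 2 := by
        refine sum_le_sum fun S hS => ?_
        split_ifs with h
        · refine mul_le_mul_of_nonneg_left ?_ (wt_nonneg hf P S)
          rw [← sq_abs (∑ p ∈ P, _)]
          exact pow_le_pow_left₀ ht.le (hB S hS h) 2
        · rw [zero_mul]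
          exact mul_nonneg (wt_nonneg hf P S) (sq_nonneg _)
    _ = ∑ p ∈ P, c p ^ 2 * (1 - f p ^ 2) := wt_var f c P
    _ ≤ ∑ p ∈ P, c p ^ 2 := by
        refine sum_le_sum fun p _ => ?_
        have h1 : 0 ≤ c p ^ 2 := sq_nonneg _
        have h2 : 0 ≤ f p ^ 2 := sq_nonneg _
        nlinarith
    _ ≤ V := hV

end Pool.Agent.Helper82K9.EL
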