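import Pool.Agent.Helper82K9.EL.EL4

set_option autoImplicit false

/-! The distances to the real characters of the random completely multiplicative functions. -/

namespace Pool.Agent.Helper82K9.EL

open Finset
open Pool.Agent.Y872.L (CM)
open Pool.Agent.R512.U (Far)
open Pool.Agent.R512.U.Hal (dst)

/-- the distance to a character up to `N` -/
noncomputable def dstR (f : ℕ → ℝ) {q : ℕ} (χ : DirichletCharacter ℂ q) (N : ℕ) : ℝ :=
  ∑ p ∈ (Icc 1 N).filter Nat.Prime, (1 - ((f p : ℂ) * χ (p : ZMod q)).re) / (p : ℝ)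

/-- far from the real characters -/
def FarR (A N : ℕ) (f : ℕ → ℝ) : Prop := ∀ (q : ℕ) (χ : DirichletCharacter ℂ q), 1 ≤ q → q ≤ A → χ ^ 2 = 1 →
  (A : ℝ) ≤ dstR f χ N

lemma sq_sum (N : ℕ) : ∑ p ∈ (Icc 1 N).filter Nat.Prime, (1 / (p : ℝ)) ^ 2 ≤ 1 := by
  have h1 : ∀ N : ℕ, ∑ p ∈ Icc 2 (N + 1), (1 / (p : ℝ)) ^ 2 ≤ 1 - 1 / ((N : ℝ) + 1) := by
    intro N
    induction N with
    | zero => simp
    | succ N ih =>
      rw [Finset.sum_Icc_succ_top (by omega)]
      have h2 : (1 / (((N + 1 + 1 : ℕ) : ℝ))) ^ 2 ≤ 1 / ((N : ℝ) + 1) - 1 / ((N : ℝ) + 2) := by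
        push_cast
        have h3 : (0 : ℝ) < (N : ℝ) + 1 := by positivity
        have h4 : (0 : ℝ) < (N : ℝ) + 2 := by positivity
        rw [div_sub_div _ _ h3.ne' h4.ne', one_div, inv_pow, ← one_div]
        rw [div_le_div_iff₀ (by positivity) (by positivity)]
        nlinarith
      push_cast at ih h2 ⊢
      have h5 : ((N : ℝ) + 1 + 1) = (N : ℝ) + 2 := by ring
      rw [h5] at h2 ⊢
      linarith
  have h2 : (Icc 1 N).filter Nat.Prime ⊆ Icc 2 (N + 1) := by
    intro p hp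
    rw [mem_filter, mem_Icc] at hp
    rw [mem_Icc]
    exact ⟨hp.2.two_le, by omega⟩
  refine (sum_le_sum_of_subset_of_nonneg h2 fun _ _ _ => by positivity).trans ((h1 N).trans ?_)
  have : (0 : ℝ) ≤ 1 / ((N : ℝ) + 1) := by positivity
  linarith

/-- one character -/
lemma one_char {f : ℕ → ℝ} (hf : ∀ n, |f n| ≤ 1) {q : ℕ} (χ : DirichletCharacter ℂ q) (N : ℕ) (P : Finset ℕ)
    (hP : (Icc 1 N).filter Nat.Prime ⊆ P) (A A1 : ℝ) (hA : A1 < A) (hd : A ≤ dstR f χ N)
    (Bad : Finset ℕ → Prop) [DecidablePred Bad] (hB : ∀ S, Bad S → dst (xi S) χ N < A1) :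
    ∑ S ∈ P.powerset, (if Bad S then wt f P S else 0) ≤ 1 / (A - A1) ^ 2 := by
  set c : ℕ → ℝ := fun p => if p ∈ (Icc 1 N).filter Nat.Prime then (χ (p : ZMod q)).re / p else 0 with hc
  have hre : ∀ p : ℕ, |(χ (p : ZMod q)).re| ≤ 1 := fun p =>
    (Complex.abs_re_le_norm _).trans (χ.norm_le_one _)
  refine cheb hf c P 1 (A - A1) (by linarith) ?_ Bad fun S _ hS => ?_
  · have h1 : ∑ p ∈ P, c p ^ 2 = ∑ p ∈ (Icc 1 N).filter Nat.Prime, c p ^ 2 := by
      symm
      apply sum_subset hP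
      intro p _ hp
      rw [hc]
      simp only
      rw [if_neg hp]
      norm_num
    rw [h1]
    refine le_trans (sum_le_sum fun p hp => ?_) (sq_sum N)
    rw [hc]
    simp only
    rw [if_pos hp, div_pow, div_pow, one_pow]
    refine div_le_div_of_nonneg_right ?_ (by positivity)
    rw [← sq_abs]
    exact pow_le_one₀ (abs_nonneg _) (hre p)
  · have h1 : ∑ p ∈ P, c p * ((sg S p : ℝ) - f p) =
        ∑ p ∈ (Icc 1 N).filter Nat.Prime, c p * ((sg S p : ℝ) - f p) := by
      symm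
      apply sum_subset hP
      intro p _ hp
      rw [hc]
      simp only
      rw [if_neg hp, zero_mul]
    have h2 : dstR f χ N - dst (xi S) χ N = ∑ p ∈ (Icc 1 N).filter Nat.Prime, c p * ((sg S p : ℝ) - f p) := by
      unfold dstR Pool.Agent.R512.U.Hal.dst
      rw [← sum_sub_distrib]
      refine sum_congr rfl fun p hp => ?_
      have hpp := (mem_filter.1 hp).2
      have hp0 : (0 : ℝ) < p := by exact_mod_cast hpp.pos
      rw [hc]
      simp only
      rw [if_pos hp, xi_prime S hpp]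
      have e1 : ((f p : ℂ) * χ (p : ZMod q)).re = f p * (χ (p : ZMod q)).re := by
        rw [Complex.re_ofReal_mul]
      have e2 : (((sg S p : ℤ) : ℂ) * χ (p : ZMod q)).re = (sg S p : ℝ) * (χ (p : ZMod q)).re := by
        have : ((sg S p : ℤ) : ℂ) = (((sg S p : ℤ) : ℝ) : ℂ) := by push_cast; rfl
        rw [this, Complex.re_ofReal_mul]
      rw [e1, e2]
      field_simp
      ring
    rw [h1, ← h2]
    have h3 := hB S hS
    rw [abs_of_pos (by linarith)]
    linarith

/-- the weight of the bad sets is small -/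
theorem far_prob (A1 : ℕ) (δ : ℝ) (hδ : 0 < δ) : ∃ A : ℕ, A1 ≤ A ∧ ∀ f : ℕ → ℝ, (∀ n, |f n| ≤ 1) → ∀ N : ℕ, FarR A N f →
    ∀ P : Finset ℕ, (Icc 1 N).filter Nat.Prime ⊆ P → ∀ Bad : Finset ℕ → Prop, ∀ [DecidablePred Bad],
      (∀ S, Bad S → ¬ Far A1 N (xi S)) → ∑ S ∈ P.powerset, (if Bad S then wt f P S else 0) ≤ δ := by
  classical
  set K : ℕ := ∑ j ∈ range A1, Fintype.card (DirichletCharacter ℂ (j + 1)) with hK
  set D : ℕ := ⌈(K : ℝ) / δ⌉₊ + 1 with hD
  have hD1 : (1 : ℝ) ≤ D := by rw [hD]; push_cast; linarith [Nat.cast_nonneg (α := ℝ) ⌈(K : ℝ) / δ⌉₊]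
  have hKD : (K : ℝ) / δ ≤ D := by
    refine (Nat.le_ceil _).trans ?_
    rw [hD]; push_cast; linarith
  refine ⟨A1 + D, by omega, fun f hf N hF P hP Bad _ hBad => ?_⟩
  set B' : (j : ℕ) → DirichletCharacter ℂ (j + 1) → Finset ℕ → Prop := fun j χ S =>
    χ ^ 2 = 1 ∧ dst (xi S) χ N < A1 with hB'
  have h1 : ∀ S ∈ P.powerset, (if Bad S then wt f P S else 0) ≤
      ∑ j ∈ range A1, ∑ χ : DirichletCharacter ℂ (j + 1), if B' j χ S then wt f P S else 0 := by
    intro S _
    have hnn : ∀ j ∈ range A1, ∀ χ ∈ (univ : Finset (DirichletCharacter ℂ (j + 1))), 0 ≤ (if B' j χ S then wt f P S else 0) := by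
      intro j _ χ _
      split_ifs
      · exact wt_nonneg hf _ _
      · exact le_rfl
    split_ifs with hb
    · have h2 := hBad S hb
      unfold Far at h2
      push Not at h2
      obtain ⟨q, χ, hq1, hq2, hχ, h3⟩ := h2
      obtain ⟨j, rfl⟩ : ∃ j, q = j + 1 := ⟨q - 1, by omega⟩
      have h4 : (if B' j χ S then wt f P S else 0) = wt f P S := if_pos ⟨hχ, h3⟩
      calc wt f P S = (if B' j χ S then wt f P S else 0) := h4.symm
        _ ≤ ∑ χ : DirichletCharacter ℂ (j + 1), if B' j χ S then wt f P S else 0 :=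
            single_le_sum (f := fun χ => if B' j χ S then wt f P S else 0)
              (fun χ hχ => hnn j (mem_range.2 (by omega)) χ hχ) (mem_univ χ)
        _ ≤ _ := single_le_sum (f := fun j => ∑ χ : DirichletCharacter ℂ (j + 1), if B' j χ S then wt f P S else 0)
              (fun j hj => sum_nonneg (hnn j hj)) (mem_range.2 (by omega : j < A1))
    · exact sum_nonneg fun j hj => sum_nonneg (hnn j hj)
  refine (sum_le_sum h1).trans ?_
  rw [sum_comm]
  have h2 : ∀ j ∈ range A1, ∑ S ∈ P.powerset, ∑ χ : DirichletCharacter ℂ (j + 1), (if B' j χ S then wt f P S else 0) ≤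
      Fintype.card (DirichletCharacter ℂ (j + 1)) * (1 / (D : ℝ) ^ 2) := by
    intro j hj
    rw [mem_range] at hj
    rw [sum_comm]
    have h3 : ∀ χ ∈ (univ : Finset (DirichletCharacter ℂ (j + 1))),
        ∑ S ∈ P.powerset, (if B' j χ S then wt f P S else 0) ≤ 1 / (D : ℝ) ^ 2 := by
      intro χ _
      by_cases hχ : χ ^ 2 = 1
      · have h4 := one_char hf χ N P hP ((A1 + D : ℕ) : ℝ) A1 (by push_cast; linarith)
          (hF (j + 1) χ (by omega) (by omega) hχ) (B' j χ) (fun S hS => hS.2)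
        refine h4.trans (le_of_eq ?_)
        push_cast
        ring
      · have h4 : ∀ S ∈ P.powerset, (if B' j χ S then wt f P S else 0) = 0 := by
          intro S _
          rw [if_neg fun h => hχ h.1]
        rw [sum_congr rfl h4, sum_const_zero]
        positivity
    refine (sum_le_sum h3).trans ?_
    rw [sum_const, card_univ, nsmul_eq_mul]
  refine (sum_le_sum h2).trans ?_
  rw [← sum_mul]
  have h3 : ∑ j ∈ range A1, (Fintype.card (DirichletCharacter ℂ (j + 1)) : ℝ) = K := by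
    rw [hK]; push_cast; rfl
  rw [h3, mul_one_div, div_le_iff₀ (by positivity)]
  rw [div_le_iff₀ hδ] at hKD
  have h4 : (D : ℝ) * δ ≤ δ * (D : ℝ) ^ 2 := by
    have : δ * (D : ℝ) ^ 2 = (D : ℝ) * δ * D := by ring
    rw [this]
    exact le_mul_of_one_le_right (by positivity) hD1
  linarith

end Pool.Agent.Helper82K9.EL
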