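import Pool.Agent.Helper82K9.EL.EL5

set_option autoImplicit false

/-! The rough part of an integer is usually squarefree: real multiplicative functions as means. -/

namespace Pool.Agent.Helper82K9.EL

open Finset

/-- real multiplicative functions bounded by `1` -/
structure RMul (f : ℕ → ℝ) : Prop where
  one : f 1 = 1
  abs : ∀ n, |f n| ≤ 1
  mul : ∀ m n : ℕ, 1 ≤ m → 1 ≤ n → Nat.Coprime m n → f (m * n) = f m * f n

/-- no large square divisor -/
def Gd (D n : ℕ) : Prop := ∀ d : ℕ, D < d → ¬ d ^ 2 ∣ n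

/-- the modulus -/
def md (D : ℕ) : ℕ := D.factorial ^ (2 * D)

lemma md_pos (D : ℕ) : 0 < md D := pow_pos D.factorial_pos _

lemma gd_parts {D n : ℕ} (hD : 1 ≤ D) (hn : 1 ≤ n) (hg : Gd D n) :
    Nat.Coprime (Nat.gcd n (md D)) (n / Nat.gcd n (md D)) ∧ Squarefree (n / Nat.gcd n (md D)) := by
  have ha1 : 1 ≤ Nat.gcd n (md D) := Nat.gcd_pos_of_pos_left _ hn
  have hdn : Nat.gcd n (md D) ∣ n := Nat.gcd_dvd_left _ _
  have hdm : Nat.gcd n (md D) ∣ md D := Nat.gcd_dvd_right _ _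
  have hb : Nat.gcd n (md D) * (n / Nat.gcd n (md D)) = n := Nat.mul_div_cancel' hdn
  have key : ∀ p : ℕ, p.Prime → p ∣ n / Nat.gcd n (md D) → ¬ p ∣ md D := by
    intro p hp hpb hpm
    have hpD : p ≤ D := (hp.dvd_factorial).1 (hp.dvd_of_dvd_pow hpm)
    have h1 : p ^ (2 * D) ∣ md D := pow_dvd_pow_of_dvd ((hp.dvd_factorial).2 hpD) _
    obtain ⟨v, hv⟩ : ∃ v, v = n.factorization p := ⟨_, rfl⟩
    have h2 : p ^ v ∣ n := by rw [hv]; exact Nat.ordProj_dvd n p
    have h3 : ¬ p ^ (v + 1) ∣ n := by rw [hv]; exact Nat.pow_succ_factorization_not_dvd (by omega) hp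
    have h4 : v ≤ 2 * D := by
      by_contra hcon
      have h5 : p ^ (2 * D) ∣ n := (pow_dvd_pow p (by omega)).trans h2
      apply hg (p ^ D)
      · exact Nat.lt_pow_self hp.one_lt
      · rw [← pow_mul, mul_comm D 2]
        exact h5
    have h5 : p ^ v ∣ Nat.gcd n (md D) := Nat.dvd_gcd h2 ((pow_dvd_pow p h4).trans h1)
    apply h3
    rw [pow_succ, ← hb]
    exact mul_dvd_mul h5 hpb
  refine ⟨?_, ?_⟩
  · rw [Nat.coprime_iff_gcd_eq_one]
    by_contra hcon
    obtain ⟨p, hp, hpd⟩ := Nat.exists_prime_and_dvd hcon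
    exact key p hp (hpd.trans (Nat.gcd_dvd_right _ _)) ((hpd.trans (Nat.gcd_dvd_left _ _)).trans hdm)
  · rw [Nat.squarefree_iff_prime_squarefree]
    intro p hp hpp
    have h1 := key p hp ((Dvd.intro _ rfl).trans hpp)
    apply hg p
    · by_contra hcon
      apply h1
      exact ((hp.dvd_factorial).2 (not_lt.1 hcon)).trans (dvd_pow_self _ (by omega))
    · rw [pow_two, ← hb]
      exact hpp.mul_left _

lemma rmul_sqfree {f : ℕ → ℝ} (hf : RMul f) : ∀ b : ℕ, Squarefree b → f b = ∏ p ∈ b.primeFactors, f p := by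
  intro b
  induction b using Nat.strong_induction_on with
  | _ b ih =>
    intro hb
    by_cases h1 : b = 1
    · rw [h1]; simp [hf.one]
    obtain ⟨p, hp, c, hc⟩ := Nat.exists_prime_and_dvd h1
    have hc0 : c ≠ 0 := by
      rintro rfl
      exact hb.ne_zero (by rw [hc, mul_zero])
    have hpc : Nat.Coprime p c := by
      rw [hp.coprime_iff_not_dvd]
      rintro ⟨e, rfl⟩
      have := (Nat.squarefree_iff_prime_squarefree.1 hb) p hp
      apply this
      rw [hc]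
      exact ⟨e, by ring⟩
    have hcs : Squarefree c := hb.squarefree_of_dvd ⟨p, by rw [hc, mul_comm]⟩
    have hclt : c < b := by
      rw [hc]
      have := hp.two_le
      have : 0 < c := Nat.pos_of_ne_zero hc0
      nlinarith
    rw [hc, hf.mul p c hp.pos (Nat.pos_of_ne_zero hc0) hpc, ih c hclt hcs, Nat.primeFactors_mul hp.ne_zero hc0,
      hp.primeFactors, prod_union, prod_singleton]
    rw [disjoint_singleton_left, Nat.mem_primeFactors]
    rintro ⟨_, h2, _⟩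
    exact (hp.coprime_iff_not_dvd.1 hpc) h2

/-- the periodic factor -/
noncomputable def th (f : ℕ → ℝ) (D : ℕ) (S : Finset ℕ) (n : ℕ) : ℝ :=
  f (Nat.gcd n (md D)) * (xi S (Nat.gcd n (md D)) : ℝ)

lemma th_le {f : ℕ → ℝ} (hf : ∀ n, |f n| ≤ 1) (D : ℕ) (S : Finset ℕ) (n : ℕ) : |th f D S n| ≤ 1 := by
  unfold th
  rw [abs_mul]
  refine mul_le_one₀ (hf _) (abs_nonneg _) ?_
  have := Pool.Agent.Y872.L.cm_abs (xi_cm S) (Nat.gcd n (md D))
  exact_mod_cast this

lemma th_per (f : ℕ → ℝ) (D : ℕ) (S : Finset ℕ) (n : ℕ) : th f D S n = th f D S (n % md D) := by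
  have h1 : Nat.gcd n (md D) = Nat.gcd (n % md D) (md D) := by
    rw [Nat.gcd_comm n, Nat.gcd_rec]
  unfold th
  rw [h1]

/-- the representation as a mean -/
lemma rep {f : ℕ → ℝ} (hf : RMul f) {D n : ℕ} (hD : 1 ≤ D) (hn : 1 ≤ n) (hg : Gd D n) (P : Finset ℕ)
    (hP : ∀ p, p.Prime → p ≤ n → p ∈ P) :
    f n = ∑ S ∈ P.powerset, wt f P S * (th f D S n * (xi S n : ℝ)) := by
  obtain ⟨hco, hsq⟩ := gd_parts hD hn hg
  have ha1 : 1 ≤ Nat.gcd n (md D) := Nat.gcd_pos_of_pos_left _ hn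
  have hdn : Nat.gcd n (md D) ∣ n := Nat.gcd_dvd_left _ _
  obtain ⟨a, ha⟩ : ∃ a, a = Nat.gcd n (md D) := ⟨_, rfl⟩
  obtain ⟨b, hb⟩ : ∃ b, b = n / Nat.gcd n (md D) := ⟨_, rfl⟩
  have hab : a * b = n := by rw [ha, hb]; exact Nat.mul_div_cancel' hdn
  rw [← hb, ← ha] at hco
  rw [← hb] at hsq
  have hb1 : 1 ≤ b := Nat.pos_of_ne_zero hsq.ne_zero
  have h1 : ∀ S ∈ P.powerset, wt f P S * (th f D S n * (xi S n : ℝ)) =
      f a * (wt f P S * ∏ p ∈ b.primeFactors, (sg S p : ℝ)) := by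
    intro S _
    have h2 : (xi S a : ℝ) * (xi S n : ℝ) = ∏ p ∈ b.primeFactors, (sg S p : ℝ) := by
      rw [← hab, (xi_cm S).mul, ← Int.cast_prod, ← xi_sqfree S hsq]
      rcases (xi_cm S).val a (by omega) with h | h <;> rw [h] <;> push_cast <;> ring
    unfold th
    rw [← ha, ← h2]
    ring
  rw [sum_congr rfl h1, ← mul_sum, wt_prod f P b.primeFactors, ← rmul_sqfree hf b hsq, ← hf.mul a b (by omega) hb1 hco, hab]
  intro p hp
  rw [Nat.mem_primeFactors] at hp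
  refine hP p hp.1 (Nat.le_of_dvd (by omega) ?_)
  rw [← hab]
  exact hp.2.1.mul_left _

/-- the number of the integers with large square divisors -/
lemma bad_count (D Y : ℕ) (hD : 1 ≤ D) (Bad : ℕ → Prop) [DecidablePred Bad] (hB : ∀ n, Bad n → ¬ Gd D n) :
    (((Icc 1 Y).filter Bad).card : ℝ) ≤ Y / D := by
  classical
  have h1 : (Icc 1 Y).filter Bad ⊆ (Ioc D Y).biUnion (fun d => (Icc 1 Y).filter (fun n => d ^ 2 ∣ n)) := by
    intro n hn
    rw [mem_filter, mem_Icc] at hn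
    have h2 := hB n hn.2
    unfold Gd at h2
    push Not at h2
    obtain ⟨d, hd1, hd2⟩ := h2
    rw [mem_biUnion]
    refine ⟨d, ?_, ?_⟩
    · rw [mem_Ioc]
      refine ⟨hd1, ?_⟩
      have h3 := Nat.le_of_dvd (by omega) hd2
      nlinarith [hn.1.2]
    · rw [mem_filter, mem_Icc]
      exact ⟨hn.1, hd2⟩
  have h2 : (((Icc 1 Y).filter Bad).card : ℝ) ≤ ∑ d ∈ Ioc D Y, (((Icc 1 Y).filter (fun n => d ^ 2 ∣ n)).card : ℝ) := by
    have := (card_le_card h1).trans card_biUnion_le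
    exact_mod_cast this
  have h3 : ∀ d ∈ Ioc D Y, (((Icc 1 Y).filter (fun n => d ^ 2 ∣ n)).card : ℝ) ≤ Y * (1 / ((d : ℝ) - 1) - 1 / d) := by
    intro d hd
    rw [mem_Ioc] at hd
    have hd1 : (1 : ℝ) < d := by exact_mod_cast (by omega : 1 < d)
    have h4 : ((Icc 1 Y).filter (fun n => d ^ 2 ∣ n)).card = Y / d ^ 2 := by
      have h6 : Icc 1 Y = Ioc 0 Y := by
        ext n
        simp only [mem_Icc, mem_Ioc]
        omega
      rw [h6]
      exact Nat.Ioc_filter_dvd_card_eq_div Y (d ^ 2)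
    rw [h4]
    have h5 : ((Y / d ^ 2 : ℕ) : ℝ) ≤ (Y : ℝ) / ((d ^ 2 : ℕ) : ℝ) := Nat.cast_div_le
    refine h5.trans ?_
    push_cast
    rw [div_eq_mul_one_div]
    refine mul_le_mul_of_nonneg_left ?_ (Nat.cast_nonneg _)
    have h6 : 1 / ((d : ℝ) - 1) - 1 / d = 1 / (((d : ℝ) - 1) * d) := by
      have : (d : ℝ) - 1 ≠ 0 := by linarith
      have h7 : (d : ℝ) ≠ 0 := by linarith
      field_simp
      ring
    rw [h6]
    apply one_div_le_one_div_of_le
    · apply mul_pos <;> linarith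
    · nlinarith
  have h4 : ∀ Z : ℕ, ∑ d ∈ Ioc D (D + Z), (1 / ((d : ℝ) - 1) - 1 / d) = 1 / D - 1 / ((D : ℝ) + Z) := by
    intro Z
    induction Z with
    | zero => simp
    | succ Z ih =>
      rw [← add_assoc, Finset.sum_Ioc_succ_top (by omega), ih]
      push_cast
      have : (D : ℝ) + Z + 1 - 1 = D + Z := by ring
      rw [this]
      ring
  refine h2.trans ((sum_le_sum h3).trans ?_)
  rw [← mul_sum]
  rcases le_total Y D with h5 | h5
  · rw [Ioc_eq_empty (by omega)]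
    simp
    positivity
  · obtain ⟨Z, rfl⟩ := Nat.exists_eq_add_of_le h5
    rw [h4, div_eq_mul_one_div ((D + Z : ℕ) : ℝ)]
    refine mul_le_mul_of_nonneg_left ?_ (Nat.cast_nonneg _)
    have : (0 : ℝ) ≤ 1 / ((D : ℝ) + Z) := by positivity
    linarith

end Pool.Agent.Helper82K9.EL
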