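import Pool.Agent.Helper82K9.EL.EL6

set_option autoImplicit false

/-! Exponential sums of real multiplicative functions in almost all windows, at one scale. -/

namespace Pool.Agent.Helper82K9.EL

open Finset
open Pool.Agent.H807R2.Dav (ee norm_ee ee_add ee_int ee_pow ee_zero)
open Pool.Agent.H373R2.T7 (orth)
open Pool.Agent.Y872.L (CM)
open Pool.Agent.R512.U (Far)

/-- the sum over the windows -/
noncomputable def Wn (φ : ℕ → ℂ) (W X : ℕ) : ℝ :=
  ∑ z ∈ range (3 * X + 1), ‖∑ n ∈ Icc 1 (3 * X), if n ≤ z ∧ z < n + W then φ n else 0‖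

lemma Wn_nonneg (φ : ℕ → ℂ) (W X : ℕ) : 0 ≤ Wn φ W X := sum_nonneg fun _ _ => norm_nonneg _

lemma Wn_congr {φ ψ : ℕ → ℂ} {X : ℕ} (W : ℕ) (h : ∀ n ∈ Icc 1 (3 * X), φ n = ψ n) : Wn φ W X = Wn ψ W X := by
  unfold Wn
  refine sum_congr rfl fun z _ => ?_
  congr 1
  refine sum_congr rfl fun n hn => ?_
  rw [h n hn]

lemma Wn_lin {ι : Type} (s : Finset ι) (c : ι → ℂ) (φ : ι → ℕ → ℂ) (W X : ℕ) :
    Wn (fun n => ∑ i ∈ s, c i * φ i n) W X ≤ ∑ i ∈ s, ‖c i‖ * Wn (φ i) W X := by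
  unfold Wn
  simp only [mul_sum]
  rw [sum_comm]
  refine sum_le_sum fun z _ => ?_
  have h1 : ∑ n ∈ Icc 1 (3 * X), (if n ≤ z ∧ z < n + W then ∑ i ∈ s, c i * φ i n else 0) =
      ∑ i ∈ s, c i * ∑ n ∈ Icc 1 (3 * X), if n ≤ z ∧ z < n + W then φ i n else 0 := by
    simp only [mul_sum]
    rw [sum_comm]
    refine sum_congr rfl fun n _ => ?_
    split_ifs
    · rfl
    · simp
  rw [h1]
  refine (norm_sum_le _ _).trans (sum_le_sum fun i _ => ?_)
  rw [norm_mul]

lemma Wn_add (φ ψ : ℕ → ℂ) (W X : ℕ) : Wn (fun n => φ n + ψ n) W X ≤ Wn φ W X + Wn ψ W X := by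
  unfold Wn
  rw [← sum_add_distrib]
  refine sum_le_sum fun z _ => ?_
  have h1 : ∑ n ∈ Icc 1 (3 * X), (if n ≤ z ∧ z < n + W then φ n + ψ n else 0) =
      (∑ n ∈ Icc 1 (3 * X), if n ≤ z ∧ z < n + W then φ n else 0) +
        ∑ n ∈ Icc 1 (3 * X), if n ≤ z ∧ z < n + W then ψ n else 0 := by
    rw [← sum_add_distrib]
    refine sum_congr rfl fun n _ => ?_
    split_ifs
    · rfl
    · simp
  rw [h1]
  exact norm_add_le _ _

lemma Wn_triv (φ : ℕ → ℂ) (W X : ℕ) : Wn φ W X ≤ W * ∑ n ∈ Icc 1 (3 * X), ‖φ n‖ := by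
  unfold Wn
  have h1 : ∀ z ∈ range (3 * X + 1), ‖∑ n ∈ Icc 1 (3 * X), (if n ≤ z ∧ z < n + W then φ n else 0)‖ ≤
      ∑ n ∈ Icc 1 (3 * X), if n ≤ z ∧ z < n + W then ‖φ n‖ else 0 := by
    intro z _
    refine (norm_sum_le _ _).trans (sum_le_sum fun n _ => ?_)
    split_ifs
    · exact le_rfl
    · simp
  refine (sum_le_sum h1).trans ?_
  rw [sum_comm, mul_sum]
  refine sum_le_sum fun n _ => ?_
  rw [← sum_filter, sum_const, nsmul_eq_mul]
  refine mul_le_mul_of_nonneg_right ?_ (norm_nonneg _)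
  have h2 : (range (3 * X + 1)).filter (fun z => n ≤ z ∧ z < n + W) ⊆ Ico n (n + W) := by
    intro z hz
    rw [mem_filter] at hz
    rw [mem_Ico]
    exact hz.2
  have h3 := card_le_card h2
  rw [Nat.card_Ico, Nat.add_sub_cancel_left] at h3
  exact_mod_cast h3

/-- periodic factors -/
lemma Wn_per (Q : ℕ) (hQ : 1 ≤ Q) (θ : ℕ → ℂ) (hθ : ∀ n, θ n = θ (n % Q)) (hθ1 : ∀ n, ‖θ n‖ ≤ 1) (h : ℕ → ℂ)
    (W X : ℕ) (B : ℝ) (hB : ∀ α : ℝ, Wn (fun n => h n * ee ((n : ℝ) * α)) W X ≤ B) (α : ℝ) :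
    Wn (fun n => θ n * h n * ee ((n : ℝ) * α)) W X ≤ Q * B := by
  have hQ0 : (0 : ℝ) < Q := by exact_mod_cast hQ
  have hQc : (Q : ℂ) ≠ 0 := by exact_mod_cast hQ0.ne'
  have hB0 : 0 ≤ B := (Wn_nonneg _ _ _).trans (hB 0)
  set c : ℕ × ℕ → ℂ := fun i => θ i.1 * ee (-((i.2 : ℝ) * ((i.1 : ℝ) / Q))) / Q with hc
  have h1 : ∀ n : ℕ, θ n * h n * ee ((n : ℝ) * α) = ∑ i ∈ range Q ×ˢ range Q, c i *
      (h n * ee ((n : ℝ) * (α + (i.2 : ℝ) / Q))) := by
    intro n
    rw [sum_product]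
    have h2 : ∀ r ∈ range Q, ∑ j ∈ range Q, c (r, j) * (h n * ee ((n : ℝ) * (α + (j : ℝ) / Q))) =
        if r = n % Q then θ r * h n * ee ((n : ℝ) * α) else 0 := by
      intro r hr
      rw [mem_range] at hr
      have h3 : ∀ j ∈ range Q, c (r, j) * (h n * ee ((n : ℝ) * (α + (j : ℝ) / Q))) =
          (θ r * h n * ee ((n : ℝ) * α) / Q) * ee ((j : ℝ) * ((((n : ℤ) - r : ℤ) : ℝ) / Q)) := by
        intro j _
        rw [hc]
        simp only
        have e1 : ee ((n : ℝ) * (α + (j : ℝ) / Q)) = ee ((n : ℝ) * α) * ee ((n : ℝ) * ((j : ℝ) / Q)) := by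
          rw [← ee_add]
          congr 1
          ring
        have e2 : ee ((j : ℝ) * ((((n : ℤ) - r : ℤ) : ℝ) / Q)) =
            ee (-((j : ℝ) * ((r : ℝ) / Q))) * ee ((n : ℝ) * ((j : ℝ) / Q)) := by
          rw [← ee_add]
          congr 1
          push_cast
          ring
        rw [e1, e2]
        ring
      rw [sum_congr rfl h3, ← mul_sum, orth Q hQ]
      by_cases h4 : r = n % Q
      · rw [if_pos h4, if_pos]
        · field_simp
        · rw [h4]
          push_cast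
          refine ⟨(n : ℤ) / Q, ?_⟩
          have h5 := Int.emod_add_mul_ediv (n : ℤ) Q
          linarith
      · rw [if_neg h4, if_neg, mul_zero]
        intro h5
        apply h4
        have h6 : (r : ℤ) = (n : ℤ) % Q := by
          have h7 : (n : ℤ) % Q = (r : ℤ) % Q :=
            Int.emod_eq_emod_iff_emod_sub_eq_zero.2 (Int.emod_eq_zero_of_dvd h5)
          rw [h7, Int.emod_eq_of_lt (by positivity) (by exact_mod_cast hr)]
        exact_mod_cast h6
    rw [sum_congr rfl h2, sum_ite_eq' (range Q) (n % Q), if_pos (mem_range.2 (Nat.mod_lt _ hQ)), ← hθ]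
  have h2 : Wn (fun n => θ n * h n * ee ((n : ℝ) * α)) W X =
      Wn (fun n => ∑ i ∈ range Q ×ˢ range Q, c i * (h n * ee ((n : ℝ) * (α + (i.2 : ℝ) / Q)))) W X :=
    Wn_congr W fun n _ => h1 n
  rw [h2]
  refine (Wn_lin _ _ _ _ _).trans ?_
  have h3 : ∀ i ∈ range Q ×ˢ range Q, ‖c i‖ * Wn (fun n => h n * ee ((n : ℝ) * (α + (i.2 : ℝ) / Q))) W X ≤ 1 / Q * B := by
    intro i _
    refine mul_le_mul ?_ (hB _) (Wn_nonneg _ _ _) (by positivity)
    rw [hc]
    simp only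
    rw [norm_div, norm_mul, norm_ee, mul_one, Complex.norm_natCast]
    exact div_le_div_of_nonneg_right (hθ1 _) hQ0.le
  refine (sum_le_sum h3).trans (le_of_eq ?_)
  rw [sum_const, card_product, card_range, nsmul_eq_mul]
  push_cast
  field_simp

/-- real multiplicative functions which are far from the real characters -/
theorem ws_real (ε : ℝ) (hε : 0 < ε) : ∃ A : ℕ, 1 ≤ A ∧ ∀ N : ℕ, A ≤ N → ∀ f : ℕ → ℝ, RMul f → FarR A N f →
    ∀ X : ℕ, N ≤ X → WS (fun n => (f n : ℂ)) ε A X := by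
  classical
  set D : ℕ := ⌈18 / ε⌉₊ + 1 with hD
  have hD1 : 1 ≤ D := by omega
  have hDε : 18 / ε ≤ D := by
    refine (Nat.le_ceil _).trans ?_
    rw [hD]; push_cast; linarith
  have hD0 : (0 : ℝ) < D := by exact_mod_cast hD1
  set Q : ℕ := md D with hQ
  have hQ1 : 1 ≤ Q := md_pos D
  have hQ0 : (0 : ℝ) < Q := by exact_mod_cast hQ1
  obtain ⟨A1, hA1, hws⟩ := ws_cm (ε / (3 * Q)) (by positivity)
  obtain ⟨A, hAA, hprob⟩ := far_prob A1 (ε / 9) (by positivity)
  refine ⟨A, by omega, fun N hN f hf hF X hX W hW1 hW2 α => ?_⟩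
  set P : Finset ℕ := (Icc 1 (3 * X)).filter Nat.Prime with hP
  have hPN : (Icc 1 N).filter Nat.Prime ⊆ P := by
    intro p hp
    rw [mem_filter, mem_Icc] at hp
    rw [hP, mem_filter, mem_Icc]
    exact ⟨⟨hp.1.1, by omega⟩, hp.2⟩
  have hPall : ∀ n, n ≤ 3 * X → ∀ p, p.Prime → p ≤ n → p ∈ P := by
    intro n hn p hp hpn
    rw [hP, mem_filter, mem_Icc]
    exact ⟨⟨hp.one_lt.le, hpn.trans hn⟩, hp⟩
  have hprob' := hprob f hf.abs N hF P hPN (fun S => ¬ Far A1 N (xi S)) (fun S h => h)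
  -- the mean
  set F : Finset ℕ → ℕ → ℂ := fun S n => (th f D S n : ℂ) * ((xi S n : ℤ) : ℂ) * ee ((n : ℝ) * α) with hFd
  set M : ℕ → ℂ := fun n => ∑ S ∈ P.powerset, (wt f P S : ℂ) * F S n with hM
  have hxi1 : ∀ S n, |((xi S n : ℤ) : ℝ)| ≤ 1 := by
    intro S n
    have := Pool.Agent.Y872.L.cm_abs (xi_cm S) n
    exact_mod_cast this
  have hF1 : ∀ S n, ‖F S n‖ ≤ 1 := by
    intro S n
    rw [hFd]
    simp only
    rw [norm_mul, norm_mul, norm_ee, mul_one, Complex.norm_real, Complex.norm_intCast, Real.norm_eq_abs]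
    exact mul_le_one₀ (th_le hf.abs D S n) (abs_nonneg _) (hxi1 S n)
  have hM1 : ∀ n, ‖M n‖ ≤ 1 := by
    intro n
    rw [hM]
    simp only
    refine (norm_sum_le _ _).trans ?_
    calc ∑ S ∈ P.powerset, ‖(wt f P S : ℂ) * F S n‖ ≤ ∑ S ∈ P.powerset, wt f P S := by
          refine sum_le_sum fun S _ => ?_
          rw [norm_mul, Complex.norm_real, Real.norm_of_nonneg (wt_nonneg hf.abs P S)]
          exact mul_le_of_le_one_right (wt_nonneg hf.abs P S) (hF1 S n)
      _ = 1 := wt_sum f P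
  have hrep : ∀ n ∈ Icc 1 (3 * X), Gd D n → (f n : ℂ) * ee ((n : ℝ) * α) = M n := by
    intro n hn hg
    rw [mem_Icc] at hn
    have h1 := rep hf hD1 hn.1 hg P (hPall n hn.2)
    rw [hM]
    simp only
    rw [h1]
    push_cast
    rw [sum_mul]
    refine sum_congr rfl fun S _ => ?_
    rw [hFd]
    simp only
    ring
  have hsplit : Wn (fun n => (f n : ℂ) * ee ((n : ℝ) * α)) W X ≤
      Wn (fun n => (f n : ℂ) * ee ((n : ℝ) * α) - M n) W X + Wn M W X := by
    refine le_trans (le_of_eq ?_) (Wn_add _ _ W X)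
    refine Wn_congr W fun n _ => ?_
    ring
  have herr : Wn (fun n => (f n : ℂ) * ee ((n : ℝ) * α) - M n) W X ≤ ε / 3 * W * X := by
    refine (Wn_triv _ _ _).trans ?_
    have h1 : ∀ n ∈ Icc 1 (3 * X), ‖(f n : ℂ) * ee ((n : ℝ) * α) - M n‖ ≤ if ¬ Gd D n then 2 else 0 := by
      intro n hn
      by_cases hg : Gd D n
      · rw [hrep n hn hg, sub_self, norm_zero, if_neg (not_not.2 hg)]
      · rw [if_pos hg]
        refine (norm_sub_le _ _).trans ?_
        rw [norm_mul, norm_ee, mul_one, Complex.norm_real, Real.norm_eq_abs]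
        have := hf.abs n
        have := hM1 n
        linarith
    have h2 : ∑ n ∈ Icc 1 (3 * X), ‖(f n : ℂ) * ee ((n : ℝ) * α) - M n‖ ≤ 2 * (((3 * X : ℕ) : ℝ) / D) := by
      refine (sum_le_sum h1).trans ?_
      rw [← sum_filter, sum_const, nsmul_eq_mul, mul_comm]
      exact mul_le_mul_of_nonneg_left (bad_count D (3 * X) hD1 (fun n => ¬ Gd D n) fun n h => h) (by norm_num)
    have h3 : 2 * (((3 * X : ℕ) : ℝ) / D) ≤ ε / 3 * X := by
      push_cast
      rw [div_le_iff₀ hε] at hDε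
      rw [mul_div_assoc', div_le_iff₀ hD0]
      have h4 : (0 : ℝ) ≤ X := Nat.cast_nonneg _
      nlinarith
    calc (W : ℝ) * ∑ n ∈ Icc 1 (3 * X), ‖(f n : ℂ) * ee ((n : ℝ) * α) - M n‖ ≤ W * (ε / 3 * X) :=
          mul_le_mul_of_nonneg_left (h2.trans h3) (Nat.cast_nonneg _)
      _ = _ := by ring
  have hmain : Wn M W X ≤ 2 * ε / 3 * W * X := by
    refine (Wn_lin _ _ _ _ _).trans ?_
    have h1 : ∀ S ∈ P.powerset, ‖(wt f P S : ℂ)‖ * Wn (F S) W X ≤
        wt f P S * (ε / 3 * W * X) + (if ¬ Far A1 N (xi S) then wt f P S else 0) * (3 * W * X) := by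
      intro S _
      rw [Complex.norm_real, Real.norm_of_nonneg (wt_nonneg hf.abs P S)]
      have hw := wt_nonneg hf.abs P S
      by_cases hg : Far A1 N (xi S)
      · rw [if_neg (not_not.2 hg), zero_mul, add_zero]
        refine mul_le_mul_of_nonneg_left ?_ hw
        have h2 := hws N (by omega) (xi S) (xi_cm S) hg X hX W (by omega) hW2
        have h3 := Wn_per Q hQ1 (fun n => (th f D S n : ℂ)) (fun n => by
          rw [th_per]) (fun n => by
          rw [Complex.norm_real, Real.norm_eq_abs]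
          exact th_le hf.abs D S n) (fun n => ((xi S n : ℤ) : ℂ)) W X _ h2 α
        refine h3.trans (le_of_eq ?_)
        field_simp
      · rw [if_pos hg]
        have h2 : Wn (F S) W X ≤ 3 * W * X := by
          refine (Wn_triv _ _ _).trans ?_
          have h3 : ∑ n ∈ Icc 1 (3 * X), ‖F S n‖ ≤ 3 * X := by
            refine (sum_le_sum fun n _ => hF1 S n).trans ?_
            rw [sum_const, Nat.card_Icc, nsmul_eq_mul]
            push_cast
            simp
          calc (W : ℝ) * ∑ n ∈ Icc 1 (3 * X), ‖F S n‖ ≤ W * (3 * X) := mul_le_mul_of_nonneg_left h3 (Nat.cast_nonneg _)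
            _ = _ := by ring
        have h3 : 0 ≤ wt f P S * (ε / 3 * W * X) := mul_nonneg hw (by positivity)
        have h4 := mul_le_mul_of_nonneg_left h2 hw
        linarith
    refine (sum_le_sum h1).trans ?_
    rw [sum_add_distrib, ← sum_mul, ← sum_mul, wt_sum, one_mul]
    have h2 : (∑ S ∈ P.powerset, if ¬ Far A1 N (xi S) then wt f P S else 0) * (3 * W * X) ≤ ε / 9 * (3 * W * X) :=
      mul_le_mul_of_nonneg_right hprob' (by positivity)
    calc ε / 3 * W * X + (∑ S ∈ P.powerset, if ¬ Far A1 N (xi S) then wt f P S else 0) * (3 * W * X) ≤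
          ε / 3 * W * X + ε / 9 * (3 * W * X) := by linarith
      _ = _ := by ring
  have hfin : Wn (fun n => (f n : ℂ) * ee ((n : ℝ) * α)) W X ≤ ε * W * X := by
    refine hsplit.trans ((add_le_add herr hmain).trans (le_of_eq ?_))
    ring
  exact hfin

end Pool.Agent.Helper82K9.EL
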