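import Pool.Agent.Helper82K9.EL.EL3
import Pool.Agent.Helper82K9.EL.EL7

set_option autoImplicit false

/-! Sparse families of shifts, for real multiplicative functions, at one scale. -/

namespace Pool.Agent.Helper82K9.EL

open Finset
open Pool.Agent.H373R2.T7 (energy)
open Pool.Agent.TH823.MRS (nu)

lemma hw_real (ε : ℝ) (hε : 0 < ε) (N₀ : ℕ) : ∃ A : ℕ, 1 ≤ A ∧ N₀ ≤ A ∧ ∀ N : ℕ, A ≤ N → ∀ f : ℕ → ℝ, RMul f → FarR A N f →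
    HW (fun n => (f n : ℂ)) ε A N := by
  obtain ⟨A, hA1, hA⟩ := ws_real ε hε
  refine ⟨A + N₀, by omega, by omega, fun N hN f hf hF => ⟨fun n => ?_, fun X hX W hW1 hW2 α => ?_⟩⟩
  · rw [Complex.norm_real, Real.norm_eq_abs]
    exact hf.abs n
  · have hF' : FarR A N f := by
      intro q χ h1 h2 h3
      refine le_trans ?_ (hF q χ h1 (by omega) h3)
      exact_mod_cast (by omega : A ≤ A + N₀)
    exact hA N (by omega) f hf hF' X hX W (by omega) hW2 α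

theorem famR (B : ℕ) (ε : ℝ) (hε : 0 < ε) (p : ℕ) (C : ℝ) :
    ∃ A : ℕ, ∀ N : ℕ, A ≤ N → ∀ f : ℕ → ℝ, RMul f → FarR A N f → ∀ H : ℕ, A ≤ H → H ≤ N →
      ∀ (x : ℕ) (s : ℕ → ℤ), (∀ m ∈ Icc 1 x, |s m| ≤ H) → (energy p x s : ℝ) * H ≤ C * (x : ℝ) ^ (2 * p) →
      ∀ (a : ℕ) (b : ℤ) (g : ℕ → ℂ), 1 ≤ a → b ≤ B * N → (∀ n, ‖g n‖ ≤ 1) →
      nu (Icc 1 x) (fun m => ¬ Sm (fun n => (f n : ℂ)) B N ε a b g (s m)) ≤ ε * x := by
  obtain ⟨ε', hε', N₀, h1⟩ := gen B ε hε p C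
  obtain ⟨A, hA1, hAN, hA⟩ := hw_real ε' hε' N₀
  refine ⟨A, fun N hN f hf hF H hH hHN x s hs hen a b g ha hb hg => ?_⟩
  exact h1 _ A N (hAN.trans hN) (hA N hN f hf hF) H hH (hA1.trans hH) hHN x s hs hen a b g ha hb hg

theorem polR (B : ℕ) (ε : ℝ) (hε : 0 < ε) (P : Polynomial ℤ) (hd : 1 ≤ P.natDegree) :
    ∃ A : ℕ, ∀ N : ℕ, A ≤ N → ∀ f : ℕ → ℝ, RMul f → FarR A N f → ∀ x : ℕ, A ≤ x → x ^ P.natDegree ≤ B * N →
      ∀ (a : ℕ) (b : ℤ) (g : ℕ → ℂ), 1 ≤ a → b ≤ B * N → (∀ n, ‖g n‖ ≤ 1) →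
      nu (Icc 1 x) (fun m => ¬ Sm (fun n => (f n : ℂ)) B N ε a b g (P.eval (m : ℤ))) ≤ ε * x := by
  obtain ⟨ε', hε', N₀, h1⟩ := pol B ε hε P hd (B + 1)
  obtain ⟨A, hA1, hAN, hA⟩ := hw_real ε' hε' N₀
  refine ⟨A, fun N hN f hf hF x hx hxN a b g ha hb hg => ?_⟩
  have hxx : x ≤ x ^ P.natDegree := Nat.le_self_pow (by omega) x
  have h2 : A ≤ min N (x ^ P.natDegree) := le_min hN (hx.trans hxx)
  refine h1 _ A N (hAN.trans hN) (hA N hN f hf hF) (min N (x ^ P.natDegree)) h2 (hA1.trans h2) (min_le_left _ _) x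
    ?_ ?_ a b g ha hb hg
  · rcases le_total N (x ^ P.natDegree) with h | h
    · rw [min_eq_left h]
      refine hxN.trans (Nat.mul_le_mul_right _ (Nat.le_succ B))
    · rw [min_eq_right h]
      exact Nat.le_mul_of_pos_left _ (by omega)
  · exact (min_le_right _ _).trans (Nat.le_mul_of_pos_left _ (by omega))

theorem priR (B : ℕ) (ε : ℝ) (hε : 0 < ε) :
    ∃ A : ℕ, ∀ N : ℕ, A ≤ N → ∀ f : ℕ → ℝ, RMul f → FarR A N f → ∀ H : ℕ, A ≤ H → H ≤ N →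
      ∀ (a : ℕ) (b : ℤ) (g : ℕ → ℂ), 1 ≤ a → b ≤ B * N → (∀ n, ‖g n‖ ≤ 1) →
      nu ((Icc 1 H).filter Nat.Prime) (fun q => ¬ Sm (fun n => (f n : ℂ)) B N ε a b g (q : ℤ)) ≤
        ε * ((Icc 1 H).filter Nat.Prime).card := by
  obtain ⟨ε', hε', H₀, N₀, h1⟩ := pri B ε hε
  obtain ⟨A, hA1, hAN, hA⟩ := hw_real ε' hε' (H₀ + N₀)
  refine ⟨A, fun N hN f hf hF H hH hHN a b g ha hb hg => ?_⟩
  have h2 := h1 _ A N (by omega) (hA N hN f hf hF) H hH (by omega) hHN a b g ha hb hg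
  refine h2.trans (le_of_eq ?_)
  congr 2
  rw [Nat.primeCounting, Nat.primeCounting', Nat.count_eq_card_filter_range]
  congr 1
  ext p
  simp only [mem_filter, mem_range, mem_Icc]
  constructor
  · rintro ⟨h5, h6⟩
    exact ⟨⟨h6.one_lt.le, by omega⟩, h6⟩
  · rintro ⟨h5, h6⟩
    exact ⟨by omega, h6⟩

end Pool.Agent.Helper82K9.EL
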