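import Pool.Agent.Helper82K9.EL.EL8
import Pool.Agent.Helper82K9.TF.TF10

set_option autoImplicit false

/-! Polynomial shifts, uniformly in the polynomials. -/

namespace Pool.Agent.Helper82K9.EL

open Finset
open Pool.Agent.H373R2.T7 (energy exI)
open Pool.Agent.TH823.MRS (nu nu_mono)
open Pool.Agent.TH212.EH (En energy_enum)

lemma energy_congr (p x : ℕ) {s t : ℕ → ℤ} (h : ∀ m ∈ Icc 1 x, s m = t m) : energy p x s = energy p x t := by
  unfold energy
  congr 1
  apply filter_congr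
  intro q hq
  rw [mem_product, Fintype.mem_piFinset, Fintype.mem_piFinset] at hq
  rw [sum_congr rfl fun i _ => h _ (hq.1 i), sum_congr rfl fun i _ => h _ (hq.2 i)]

/-- the energy of polynomial values, uniformly in the polynomials -/
theorem energy_unif (d : ℕ) (hd : 1 ≤ d) : ∃ (h : ℕ) (A : ℝ), 1 ≤ A ∧
    ∀ (x : ℕ), 1 ≤ x → ∀ P : Polynomial ℤ, P.natDegree = d →
    (energy h x (fun m => P.eval (m : ℤ)) : ℝ) * (x : ℝ) ^ d ≤ 2 * (A * |(P.leadingCoeff : ℝ)|) ^ 2 * (x : ℝ) ^ (2 * h) := by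
  obtain ⟨h, A, _, hA, hen⟩ := Pool.Agent.Helper82K9.TF.poly_energy1 d hd
  refine ⟨h, A, hA, fun x hx P hP => ?_⟩
  set R : Polynomial ℤ := P.comp (Polynomial.X + 1) with hR
  have hX1 : (Polynomial.X + 1 : Polynomial ℤ).natDegree = 1 := by
    have := Polynomial.natDegree_X_add_C (R := ℤ) 1
    simpa using this
  have hRd : R.natDegree = d := by rw [hR, Polynomial.natDegree_comp, hX1, hP, mul_one]
  have hRl : R.leadingCoeff = P.leadingCoeff := by
    rw [hR, Polynomial.leadingCoeff_comp (by rw [hX1]; norm_num)]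
    have : (Polynomial.X + 1 : Polynomial ℤ).leadingCoeff = 1 := by
      have := Polynomial.leadingCoeff_X_add_C (S := ℤ) 1
      simpa using this
    rw [this, one_pow, mul_one]
  have hRc : R.coeff d = P.leadingCoeff := by
    rw [← hRl, Polynomial.leadingCoeff, hRd]
  have hP0 : P.leadingCoeff ≠ 0 := by
    rw [Polynomial.leadingCoeff_ne_zero]
    rintro rfl
    rw [Polynomial.natDegree_zero] at hP
    omega
  have h1 := hen x hx R hRd.le (by rw [hRc]; exact hP0)
  rw [hRc] at h1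
  have hev : ∀ i : ℕ, R.eval (i : ℤ) = P.eval ((i + 1 : ℕ) : ℤ) := by
    intro i
    rw [hR, Polynomial.eval_comp]
    simp
  set f : ℕ → Fin x := fun m => if h : m - 1 < x then ⟨m - 1, h⟩ else ⟨0, hx⟩ with hf
  have h2 := energy_enum h (fun i : Fin x => R.eval ((i : ℕ) : ℤ)) f 0 (by
    rw [Fintype.card_fin]
    intro m hm m' hm' hmm
    rw [coe_Icc, Set.mem_Icc] at hm hm'
    have e1 : m - 1 < x := by omega
    have e2 : m' - 1 < x := by omega
    simp only [hf, e1, e2, dif_pos] at hmm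
    rw [Fin.mk.injEq] at hmm
    omega)
  rw [Fintype.card_fin] at h2
  have h3 : energy h x (fun m => P.eval (m : ℤ)) = energy h x (fun m => R.eval ((f m : ℕ) : ℤ) - 0) := by
    apply energy_congr
    intro m hm
    rw [mem_Icc] at hm
    have e1 : m - 1 < x := by omega
    simp only [hf, e1, dif_pos, sub_zero]
    rw [hev]
    congr 2
    omega
  rw [h3]
  have h4 : ((energy h x (fun m => R.eval ((f m : ℕ) : ℤ) - 0) : ℕ) : ℝ) ≤ (En h (fun i : Fin x => R.eval ((i : ℕ) : ℤ)) : ℝ) := by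
    exact_mod_cast h2
  refine (mul_le_mul_of_nonneg_right h4 (by positivity)).trans ?_
  push_cast at h1
  exact h1

theorem polU (B d : ℕ) (hd : 1 ≤ d) (ε : ℝ) (hε : 0 < ε) :
    ∃ A : ℕ, ∀ N : ℕ, A ≤ N → ∀ f : ℕ → ℝ, RMul f → FarR A N f → ∀ x : ℕ, A ≤ x → x ^ d ≤ B * N →
      ∀ P : Polynomial ℤ, P.natDegree = d → |P.leadingCoeff| ≤ B →
      (∀ m ∈ Icc 1 x, |P.eval (m : ℤ)| ≤ B * (x : ℤ) ^ d) →
      ∀ (a : ℕ) (b : ℤ) (g : ℕ → ℂ), 1 ≤ a → b ≤ B * N → (∀ n, ‖g n‖ ≤ 1) →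
      nu (Icc 1 x) (fun m => ¬ Sm (fun n => (f n : ℂ)) B N ε a b g (P.eval (m : ℤ))) ≤ ε * x := by
  obtain ⟨h, A₀, hA₀, hen⟩ := energy_unif d hd
  set K : ℕ := (B + 1) * B + 1 with hK
  have hK1 : 1 ≤ K := by omega
  have hK0 : (0 : ℝ) < K := by exact_mod_cast hK1
  obtain ⟨ε', hε', N₀, h1⟩ := gen B (ε / K) (by positivity) h ((B + 1) * (2 * (A₀ * B) ^ 2))
  obtain ⟨A, hA1, hAN, hA⟩ := hw_real ε' hε' N₀
  refine ⟨A, fun N hN f hf hF x hx hxN P hP hPl hPs a b g ha hb hg => ?_⟩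
  have hx1 : 1 ≤ x := hA1.trans hx
  have hxx : x ≤ x ^ d := Nat.le_self_pow (by omega) x
  have hle : N ≤ K * N := Nat.le_mul_of_pos_left _ (by omega)
  have hH : (B + 1) * x ^ d ≤ K * N := by
    have e1 : (B + 1) * x ^ d ≤ (B + 1) * (B * N) := Nat.mul_le_mul_left _ hxN
    rw [hK]
    nlinarith
  have hAH : A ≤ (B + 1) * x ^ d := (hx.trans hxx).trans (Nat.le_mul_of_pos_left _ (by omega))
  have h2 := h1 _ A (K * N) ((hAN.trans hN).trans hle) ((hA N hN f hf hF).mono le_rfl le_rfl hle) ((B + 1) * x ^ d)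
    hAH (hA1.trans hAH) hH x (fun m => P.eval (m : ℤ)) (by
      intro m hm
      refine (hPs m hm).trans ?_
      push_cast
      have : (0 : ℤ) ≤ (x : ℤ) ^ d := by positivity
      nlinarith) (by
      have e1 := hen x hx1 P hP
      have e2 : |(P.leadingCoeff : ℝ)| ≤ B := by exact_mod_cast hPl
      have e3 : (A₀ * |(P.leadingCoeff : ℝ)|) ^ 2 ≤ (A₀ * B) ^ 2 := by
        apply pow_le_pow_left₀ (by positivity)
        exact mul_le_mul_of_nonneg_left e2 (by positivity)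
      push_cast
      calc (energy h x (fun m => P.eval (m : ℤ)) : ℝ) * (((B : ℝ) + 1) * (x : ℝ) ^ d) =
            (B + 1) * ((energy h x (fun m => P.eval (m : ℤ)) : ℝ) * (x : ℝ) ^ d) := by ring
        _ ≤ (B + 1) * (2 * (A₀ * |(P.leadingCoeff : ℝ)|) ^ 2 * (x : ℝ) ^ (2 * h)) :=
            mul_le_mul_of_nonneg_left e1 (by positivity)
        _ ≤ (B + 1) * (2 * (A₀ * B) ^ 2 * (x : ℝ) ^ (2 * h)) := by
            apply mul_le_mul_of_nonneg_left _ (by positivity)
            apply mul_le_mul_of_nonneg_right _ (by positivity)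
            linarith
        _ = _ := by ring) a b g ha (by
      refine hb.trans ?_
      have : ((B * N : ℕ) : ℤ) ≤ ((B * (K * N) : ℕ) : ℤ) := by exact_mod_cast Nat.mul_le_mul_left _ hle
      push_cast at this ⊢
      exact this) hg
  refine le_trans (nu_mono ?_) (h2.trans ?_)
  · intro m _ hm hcon
    apply hm
    intro X hX
    have h4 := hcon X (hX.trans (Nat.mul_le_mul_left _ hle))
    refine h4.trans (le_of_eq ?_)
    push_cast
    field_simp
  · apply mul_le_mul_of_nonneg_right _ (Nat.cast_nonneg _)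
    exact div_le_self hε.le (by exact_mod_cast hK1)

end Pool.Agent.Helper82K9.EL
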